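import Pool.Agent.Helper27.FM.Defs2
import Pool.Agent.Helper27.FM.Abs

/-!
# Definitions: representations generated by idempotent (Hodge-Tate) cocharacters
-/

set_option autoImplicit false
open Filter Topology

namespace Pool.Agent.Helper37.Af

section defs

variable {E : Type*} [Field E] {G : Type*} [Group G] {n : ℕ}

/-- The homomorphism `g ↦ (V g, T g)` into the algebra `M_2(E) × M_n(E)`. -/
def pair (V : G →* GL (Fin 2) E) (T : G →* GL (Fin n) E) :
    G →* Matrix (Fin 2) (Fin 2) E × Matrix (Fin n) (Fin n) E where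
  toFun g := ((V g : Matrix (Fin 2) (Fin 2) E), (T g : Matrix (Fin n) (Fin n) E))
  map_one' := by
    simp only [map_one, Units.val_one]
    rfl
  map_mul' a b := by
    simp only [map_mul, Units.val_mul]
    rfl

/-- `T` is a semisimple representation: every stable subspace has a stable complement. -/
def Semisimple (T : G →* GL (Fin n) E) : Prop :=
  ∀ W : Submodule E (Fin n → E),
    (∀ g : G, ∀ w ∈ W, (T g : Matrix (Fin n) (Fin n) E).mulVec w ∈ W) →
      ∃ W' : Submodule E (Fin n → E),
        (∀ g : G, ∀ w ∈ W', (T g : Matrix (Fin n) (Fin n) E).mulVec w ∈ W') ∧ IsCompl W W'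

/-- `V` is potentially contained in `T`: on an open subgroup `U` there is an injective
homomorphism of representations from `V` to `T` (given by a matrix `j`). -/
def PotentiallyContained [TopologicalSpace G] (V : G →* GL (Fin 2) E) (T : G →* GL (Fin n) E) :
    Prop :=
  ∃ U : Subgroup G, IsOpen (U : Set G) ∧ ∃ j : Matrix (Fin n) (Fin 2) E,
    Function.Injective j.mulVec ∧
      ∀ g ∈ U, (T g : Matrix (Fin n) (Fin n) E) * j = j * (V g : Matrix (Fin 2) (Fin 2) E)

/-- The entries of a matrix `x` of size `2` and of matrices `z j` of size `n j` (`j : J`). -/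
def ent {J : Type*} {n : J → ℕ} (x : Matrix (Fin 2) (Fin 2) E)
    (z : ∀ j : J, Matrix (Fin (n j)) (Fin (n j)) E) :
    (Fin 2 × Fin 2) ⊕ (Σ j : J, Fin (n j) × Fin (n j)) → E
  | .inl a => x a.1 a.2
  | .inr a => z a.1 a.2.1 a.2.2

/-- There is a polynomial relation between `V` and the `T j` that is not trivial in `V`: a polynomial
`P` in the entries such that the set of all `g` with `P(V g, T g) = 0`, but `P(x, T g) ≠ 0` for
some matrix `x` of determinant `det V g`, does not have measure zero. -/
def PolynomiallyRelated [MeasurableSpace G] (μ : MeasureTheory.Measure G)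
    (V : G →* GL (Fin 2) E) {J : Type*} {n : J → ℕ} (T : ∀ j, G →* GL (Fin (n j)) E) : Prop :=
  ∃ P : MvPolynomial ((Fin 2 × Fin 2) ⊕ (Σ j : J, Fin (n j) × Fin (n j))) E,
    μ {g | MvPolynomial.eval (ent (V g) (fun j => T j g)) P = 0 ∧
      ∃ x : Matrix (Fin 2) (Fin 2) E, x.det = (V g : Matrix (Fin 2) (Fin 2) E).det ∧
        MvPolynomial.eval (ent x (fun j => T j g)) P ≠ 0} ≠ 0

end defs

section lie

variable {E : Type*} [NormedField E] {G : Type*} [Group G] {n : ℕ}

/-- The Lie algebra of the pair `(V, T)`: the `E`-span of the logarithms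
`lim_m p^(-m) ((V g, T g)^(p^m) - 1)`, `g ∈ G`, where the limit exists. -/
def infinitesimal (p : ℕ) (V : G →* GL (Fin 2) E) (T : G →* GL (Fin n) E) :
    Submodule E (Matrix (Fin 2) (Fin 2) E × Matrix (Fin n) (Fin n) E) :=
  Submodule.span E {z | ∃ g : G, Tendsto
    (fun m : ℕ => ((p : E) ^ m)⁻¹ • (pair V T g ^ (p ^ m) - 1)) atTop (𝓝 z)}

/-- The Lie algebra of `(V, T)` is generated by idempotents: every subspace which is stable under
brackets with the Lie algebra and contains all idempotents `z` of the Lie algebra whose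
component in `M_2(E)` has trace one contains the Lie algebra. -/
def IdempotentGenerated (p : ℕ) (V : G →* GL (Fin 2) E) (T : G →* GL (Fin n) E) : Prop :=
  ∀ W : Submodule E (Matrix (Fin 2) (Fin 2) E × Matrix (Fin n) (Fin n) E),
    (∀ z ∈ infinitesimal p V T, ∀ w ∈ W, z * w - w * z ∈ W) →
    (∀ z ∈ infinitesimal p V T, z * z = z → z.1.trace = 1 → z ∈ W) →
    infinitesimal p V T ≤ W

end lie

end Pool.Agent.Helper37.Af
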