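import Pool.Agent.Helper37.Af.Data
import Pool.Agent.Helper27.FM.LogN

/-!
# Project Af (MP_6cbef8_nt), module Close: from the Lie algebra to an open subgroup

PLAN. (1) `log_inj_matn`: copy the proof of `log_inj_mat` (Helper27/FM/Log.lean) with `matn_norm_mul_le`, `matnUltra` (Helper27/FM/LogN.lean,
where `exists_log_matn` is done in the same way).
(2) `exists_open_eq`: `C = s 1` is idempotent, `C * s x = s x * C = s x`. For `g` put `A g = T g * C + (1 - C)`, `B g = s (V g) + (1 - C)`. Both are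
continuous in `g` (`s` is linear between finite dimensional spaces: `LinearMap.continuous_of_finiteDimensional`) and equal to `1` at
`g = 1`; so in a neighbourhood `N` of `1`, contained in `U`, the entries of `A g - 1`, `B g - 1`, `V g - 1`, `T g - 1` have norm `≤ p^(-2)`. For `g ∈ N` let
`z` be the logarithm of `pair V T g` (`exists_log_mat`, `exists_log_matn`, product). As `C` commutes with `T g` and `C * C = C`:
`A g ^ k - 1 = (T g ^ k - 1) * C` and `B g ^ k - 1 = s (V g ^ k - 1)` (`k ≥ 1`, or all `k`), so `A g` has logarithm `z.2 * C`, `B g` has logarithm `s z.1`;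
by `hlog` they are equal, so `A g = B g` by `log_inj_matn`, i.e. `T g * C = s (V g)` (multiply by `C`, or cancel `1 - C`). The set
`{g | T g * s 1 = s (V g)}` is a subgroup `U'` (closed under products: `T (g h) C = T g (T h C) = T g s (V h) = T g C s (V h) = s (V g) s (V h)`;
inverses: `T g⁻¹ C = T g⁻¹ s (V g) s (V g⁻¹) = T g⁻¹ T g C s (V g⁻¹) = s (V g⁻¹)`) containing the neighbourhood `N` of `1`, so
open (`Subgroup.isOpen_of_mem_nhds`).
-/

set_option autoImplicit false

namespace Pool.Agent.Helper37.Af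

open Pool.Agent.Helper27.FM Matrix Filter Topology

section

variable {E : Type*} [NormedField E] [IsUltrametricDist E] {m : ℕ} (p : ℕ) [hp : Fact p.Prime]
  [NormedAlgebra ℚ_[p] E]

attribute [local instance] Matrix.normedAddCommGroup Matrix.normedSpace in
private theorem log_inj_aux {a b X : Mn E m} (ha : ∀ i j, ‖(a - 1) i j‖ ≤ (p : ℝ)⁻¹ ^ 2)
    (hb : ∀ i j, ‖(b - 1) i j‖ ≤ (p : ℝ)⁻¹ ^ 2)
    (hX : Tendsto (fun n : ℕ => ((p : E) ^ n)⁻¹ • (a ^ (p ^ n) - 1)) atTop (𝓝 X))
    (hY : Tendsto (fun n : ℕ => ((p : E) ^ n)⁻¹ • (b ^ (p ^ n) - 1)) atTop (𝓝 X)) : a = b := by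
  let _ := matnNormedRing (E := E) (m := m)
  let _ := matnNormedAlgebra (E := E) (m := m) p
  have := matnUltra (E := E) (m := m)
  have ha' : ‖a - 1‖ ≤ (p : ℝ)⁻¹ ^ 2 := by
    rw [Matrix.norm_le_iff (by positivity)]
    exact ha
  have hb' : ‖b - 1‖ ≤ (p : ℝ)⁻¹ ^ 2 := by
    rw [Matrix.norm_le_iff (by positivity)]
    exact hb
  have e1 : (fun n : ℕ => ((p : E) ^ n)⁻¹ • (a ^ (p ^ n) - 1)) = logSeq p (a - 1) := by
    funext n
    rw [smul_p_eqn, logSeq, add_sub_cancel]
  have e2 : (fun n : ℕ => ((p : E) ^ n)⁻¹ • (b ^ (p ^ n) - 1)) = logSeq p (b - 1) := by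
    funext n
    rw [smul_p_eqn, logSeq, add_sub_cancel]
  rw [e1] at hX
  rw [e2] at hY
  exact sub_left_injective (log_inj p ha' hb' hX hY)

theorem log_inj_matn {a b X : Mn E m} (ha : ∀ i j, ‖(a - 1) i j‖ ≤ (p : ℝ)⁻¹ ^ 2)
    (hb : ∀ i j, ‖(b - 1) i j‖ ≤ (p : ℝ)⁻¹ ^ 2)
    (hX : Tendsto (fun n : ℕ => ((p : E) ^ n)⁻¹ • (a ^ (p ^ n) - 1)) atTop (𝓝 X))
    (hY : Tendsto (fun n : ℕ => ((p : E) ^ n)⁻¹ • (b ^ (p ^ n) - 1)) atTop (𝓝 X)) : a = b :=
  log_inj_aux p ha hb hX hY

end

variable {E : Type*} [NontriviallyNormedField E] [IsUltrametricDist E] [CompleteSpace E] (p : ℕ)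
  [hp : Fact p.Prime] [NormedAlgebra ℚ_[p] E]
  {G : Type*} [Group G] [TopologicalSpace G] [IsTopologicalGroup G] {n : ℕ}
  {V : G →* GL (Fin 2) E} {T : G →* GL (Fin n) E}

/-- powers of the component in the corner `C` -/
private theorem corner_pow {R : Type*} [Ring R] {C t : R} (hC : C * C = C) (h : t * C = C * t)
    (k : ℕ) : (t * C + (1 - C)) ^ k - 1 = (t ^ k - 1) * C := by
  have h1 : (t * C + (1 - C)) ^ k = t ^ k * C + (1 - C) := by
    induction k with
    | zero => simp
    | succ k ih =>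
      have h2 : C * (t * C) = t * C := by rw [← mul_assoc, ← h, mul_assoc, hC]
      calc (t * C + (1 - C)) ^ (k + 1) = (t ^ k * C + (1 - C)) * (t * C + (1 - C)) := by
            rw [pow_succ, ih]
        _ = t ^ k * (C * (t * C)) + (t ^ k * C - t ^ k * (C * C)) + (t * C - C * (t * C)) +
            (1 - C - C + C * C) := by noncomm_ring
        _ = t ^ k * (t * C) + (1 - C) := by
            rw [h2, hC]
            noncomm_ring
        _ = t ^ (k + 1) * C + (1 - C) := by rw [pow_succ, mul_assoc]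
  rw [h1, sub_mul, one_mul]
  abel

private theorem sec_pow {R S : Type*} [Ring R] [Ring S] [Module E R] [Module E S]
    {s : R →ₗ[E] S} (hs : ∀ x y, s (x * y) = s x * s y) (v : R) (k : ℕ) :
    (s v + (1 - s 1)) ^ k - 1 = s (v ^ k - 1) := by
  have h1 : (s v + (1 - s 1)) ^ k = s (v ^ k) + (1 - s 1) := by
    induction k with
    | zero => simp
    | succ k ih =>
      have a1 : s (v ^ k) * s 1 = s (v ^ k) := by rw [← hs, mul_one]
      have a2 : s 1 * s v = s v := by rw [← hs, one_mul]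
      have a3 : s 1 * s 1 = s 1 := by rw [← hs, one_mul]
      calc (s v + (1 - s 1)) ^ (k + 1) = (s (v ^ k) + (1 - s 1)) * (s v + (1 - s 1)) := by
            rw [pow_succ, ih]
        _ = s (v ^ k) * s v + (s (v ^ k) - s (v ^ k) * s 1) + (s v - s 1 * s v) +
            (1 - s 1 - s 1 + s 1 * s 1) := by noncomm_ring
        _ = s (v ^ (k + 1)) + (1 - s 1) := by
            rw [a1, a2, a3, pow_succ, hs]
            abel
  rw [h1, map_sub]
  abel

/-- near `1`, the entries of a continuous matrix valued function which is `0` at `1` are small -/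
private theorem ev_small {k : ℕ} {F : G → Mn E k} (hF : Continuous F) (h1 : F 1 = 0) {r : ℝ}
    (hr : 0 < r) : ∀ᶠ g in 𝓝 (1 : G), ∀ i j, ‖F g i j‖ ≤ r := by
  rw [Filter.eventually_all]
  intro i
  rw [Filter.eventually_all]
  intro j
  have h2 : Continuous fun g => ‖F g i j‖ :=
    ((continuous_apply j).comp ((continuous_apply i).comp hF)).norm
  have h3 : ‖F 1 i j‖ < r := by rw [h1]; simpa using hr
  filter_upwards [h2.continuousAt.eventually_lt continuousAt_const h3] with g hg using hg.le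

theorem exists_open_eq (hV : Continuous V) (hT : Continuous T) {s : M2 E →ₗ[E] Mn E n}
    (hs : ∀ x y, s (x * y) = s x * s y)
    (hcomm : ∀ g, (T g : Mn E n) * s 1 = s 1 * (T g : Mn E n))
    {U : Subgroup G} (hU : IsOpen (U : Set G))
    (hlog : ∀ x ∈ U, ∀ z, ALog E p (pair V T) x z → z.2 * s 1 = s z.1) :
    ∃ U' : Subgroup G, IsOpen (U' : Set G) ∧ ∀ g ∈ U', (T g : Mn E n) * s 1 = s (V g : M2 E) := by
  have hC : s 1 * s 1 = s 1 := by rw [← hs, one_mul]
  have hr : 0 < (p : ℝ)⁻¹ ^ 2 := by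
    have := hp.out.pos
    positivity
  have hsc : Continuous s := LinearMap.continuous_of_finiteDimensional s
  have hV' : Continuous fun g => (V g : M2 E) := Units.continuous_val.comp hV
  have hT' : Continuous fun g => (T g : Mn E n) := Units.continuous_val.comp hT
  -- the subgroup
  let U' : Subgroup G :=
    { carrier := {g | (T g : Mn E n) * s 1 = s (V g : M2 E)}
      one_mem' := by simp
      mul_mem' := by
        intro a b ha hb
        simp only [Set.mem_setOf_eq] at ha hb ⊢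
        rw [map_mul, map_mul, Units.val_mul, Units.val_mul, mul_assoc, hb, hs, ← ha, mul_assoc,
          ← hs, one_mul]
      inv_mem' := by
        intro a ha
        simp only [Set.mem_setOf_eq] at ha ⊢
        have e1 : (V a : M2 E) * (V a⁻¹ : M2 E) = 1 := by
          rw [← Units.val_mul, ← map_mul, mul_inv_cancel, map_one, Units.val_one]
        have e2 : (T a⁻¹ : Mn E n) * (T a : Mn E n) = 1 := by
          rw [← Units.val_mul, ← map_mul, inv_mul_cancel, map_one, Units.val_one]
        calc (T a⁻¹ : Mn E n) * s 1 = (T a⁻¹ : Mn E n) * s ((V a : M2 E) * (V a⁻¹ : M2 E)) := by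
              rw [e1]
          _ = (T a⁻¹ : Mn E n) * ((T a : Mn E n) * s 1 * s (V a⁻¹ : M2 E)) := by rw [hs, ha]
          _ = ((T a⁻¹ : Mn E n) * (T a : Mn E n)) * (s 1 * s (V a⁻¹ : M2 E)) := by
              noncomm_ring
          _ = s (V a⁻¹ : M2 E) := by rw [e2, one_mul, ← hs, one_mul] }
  refine ⟨U', ?_, fun g hg => hg⟩
  have hUn : ∀ᶠ g in 𝓝 (1 : G), g ∈ U := hU.mem_nhds U.one_mem
  have n1 := ev_small (F := fun g => (V g : M2 E) - 1) (hV'.sub continuous_const) (by simp) hr
  have n2 := ev_small (F := fun g => (T g : Mn E n) - 1) (hT'.sub continuous_const) (by simp) hr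
  have n3 := ev_small (F := fun g => ((T g : Mn E n) * s 1 + (1 - s 1)) - 1)
    (((hT'.mul continuous_const).add continuous_const).sub continuous_const) (by simp) hr
  have n4 := ev_small (F := fun g => (s (V g : M2 E) + (1 - s 1)) - 1)
    (((hsc.comp hV').add continuous_const).sub continuous_const) (by simp) hr
  refine Subgroup.isOpen_of_mem_nhds U' (g := 1) ?_
  change ∀ᶠ g in 𝓝 (1 : G), g ∈ U'
  filter_upwards [hUn, n1, n2, n3, n4] with g hg h1 h2 h3 h4
  obtain ⟨X, hX⟩ := exists_log_mat p (V g : M2 E) h1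
  obtain ⟨Y, hY⟩ := exists_log_matn p (T g : Mn E n) h2
  have hz : ALog E p (pair V T) g (X, Y) := by
    have h5 := hX.prodMk_nhds hY
    exact h5
  have h6 : Y * s 1 = s X := hlog g hg (X, Y) hz
  have hA : Tendsto (fun k : ℕ => ((p : E) ^ k)⁻¹ •
      (((T g : Mn E n) * s 1 + (1 - s 1)) ^ (p ^ k) - 1)) atTop (𝓝 (Y * s 1)) := by
    refine (hY.mul_const (s 1)).congr fun k => ?_
    rw [corner_pow hC (hcomm g), smul_mul_assoc]
  have hB : Tendsto (fun k : ℕ => ((p : E) ^ k)⁻¹ •
      ((s (V g : M2 E) + (1 - s 1)) ^ (p ^ k) - 1)) atTop (𝓝 (Y * s 1)) := by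
    rw [h6]
    refine ((hsc.tendsto X).comp hX).congr fun k => ?_
    rw [sec_pow hs, Function.comp_apply, map_smul]
  have h7 := log_inj_matn p h3 h4 hA hB
  exact add_right_cancel h7

end Pool.Agent.Helper37.Af
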