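import Pool.Agent.Helper37.Af.Data

/-!
# Project Af (MP_6cbef8_nt), module Delta: `z.2` and `s z.1` agree on the image of `s 1`

PLAN. Let `C = s 1`; `C * s x = s x * C = s x`. `hs.br z hz 1`: `z.2 * C = C * z.2` for `z ∈ L`. Let `W = {z ∈ L | z.2 * C = s z.1}` (a submodule). Apply `hgen W`.
(1) `W` is stable under brackets with `z ∈ L`: for `w ∈ W`: `[z.2, w.2] C = z.2 (w.2 C) - w.2 C z.2 = z.2 * s w.1 - s w.1 * z.2 = s [z.1, w.1]` (`hs.br`).
(2) Idempotents: `z ∈ L`, `z * z = z`, `trace z.1 = 1`. Put `Q = z.2 * C - s z.1`. `Q` commutes with all `s x`: `[z.2 C, s x] = [z.2, s x] C = s [z.1, x]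
= [s z.1, s x]`. `(z.2 C)^2 = z.2 C` (as `C` commutes with `z.2`), `z.2 C = Q + s z.1`, so `Q Q + 2 Q s z.1 + s z.1 = Q + s z.1`, i.e.
`2 • (Q * s z.1) = Q - Q * Q` commutes with all `s x`; so `Q * s ([z.1, x]) = 0` for all `x`: (`Q s z.1 s x = s x Q s z.1 = Q s x s z.1`).
`z.1` is not scalar (trace one and idempotent), so `y = [z.1, x] ≠ 0` for some `x` (`scalar_of_commutes` in Helper27/FM/Mat.lean), and
`Q * s (a * y * b) = s a * Q * s y * s b = 0` for all `a b`; `1` is a sum of such `a y b` (with `y i j ≠ 0`: `single k i (y i j)⁻¹ * y * single j k 1 = single k k 1`), so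
`Q = Q * C = Q * s 1 = 0`.
-/

set_option autoImplicit false

namespace Pool.Agent.Helper37.Af

open Pool.Agent.Helper27.FM Matrix

section

variable {E : Type*} [Field E] {n : ℕ}

/-- an element of `M_2` which is not zero generates the unit ideal -/
private theorem delta_ideal {s : M2 E →ₗ[E] Mn E n} (hs : ∀ x y, s (x * y) = s x * s y)
    {Q : Mn E n} (hQ : ∀ x, Q * s x = s x * Q) (hQ1 : Q * s 1 = Q) {y : M2 E} (hy : y ≠ 0)
    (h0 : Q * s y = 0) : Q = 0 := by
  obtain ⟨i, j, hij⟩ : ∃ i j, y i j ≠ 0 := by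
    by_contra hcon
    push Not at hcon
    apply hy
    ext i j
    exact hcon i j
  have h1 : ∀ a b : M2 E, Q * s (a * y * b) = 0 := by
    intro a b
    rw [hs, hs, ← mul_assoc, ← mul_assoc, hQ, mul_assoc (s a), h0, mul_zero, zero_mul]
  have h2 : ∀ k : Fin 2, Q * s (single k k 1) = 0 := by
    intro k
    have e : (single k k 1 : M2 E) = single k i (y i j)⁻¹ * y * single j k 1 := by
      rw [single_mul_mul_single, inv_mul_cancel₀ hij, one_mul]
    rw [e]
    exact h1 _ _
  have h3 : (1 : M2 E) = single 0 0 1 + single 1 1 1 := by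
    ext a b
    fin_cases a <;> fin_cases b <;> simp [Matrix.single]
  rw [← hQ1, h3, map_add, mul_add, h2, h2, add_zero]

end

variable {E : Type*} [Field E] [CharZero E] {G : Type*} [Group G] {n : ℕ} {V : G →* GL (Fin 2) E}
  {T : G →* GL (Fin n) E} {L : Submodule E (M2 E × Mn E n)}

theorem eq_of_generated {s : M2 E →ₗ[E] Mn E n} (hs : Hat V T L s)
    (hbr : ∀ z ∈ L, ∀ w ∈ L, z * w - w * z ∈ L)
    (hgen : ∀ W : Submodule E (M2 E × Mn E n), (∀ z ∈ L, ∀ w ∈ W, z * w - w * z ∈ W) →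
      (∀ z ∈ L, z * z = z → z.1.trace = 1 → z ∈ W) → L ≤ W) :
    ∀ z ∈ L, z.2 * s 1 = s z.1 := by
  have hC1 : ∀ x, s 1 * s x = s x := fun x => by rw [← hs.mul, one_mul]
  have hC2 : ∀ x, s x * s 1 = s x := fun x => by rw [← hs.mul, mul_one]
  have hcz : ∀ z ∈ L, z.2 * s 1 = s 1 * z.2 := by
    intro z hz
    have := hs.br z hz 1
    rw [mul_one, one_mul, sub_self, map_zero] at this
    exact sub_eq_zero.mp this
  let W : Submodule E (M2 E × Mn E n) :=
    { carrier := {z | z ∈ L ∧ z.2 * s 1 = s z.1}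
      zero_mem' := ⟨L.zero_mem, by simp⟩
      add_mem' := by
        rintro a b ⟨h1, h2⟩ ⟨h3, h4⟩
        refine ⟨L.add_mem h1 h3, ?_⟩
        rw [Prod.snd_add, Prod.fst_add, add_mul, h2, h4, map_add]
      smul_mem' := by
        rintro c a ⟨h1, h2⟩
        refine ⟨L.smul_mem c h1, ?_⟩
        rw [Prod.smul_snd, Prod.smul_fst, smul_mul_assoc, h2, map_smul] }
  have hW := hgen W ?_ ?_
  · intro z hz
    exact (hW hz).2
  · rintro z hz w ⟨hw, hw2⟩
    refine ⟨hbr z hz w hw, ?_⟩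
    have h1 := hs.br z hz w.1
    have h2 := hcz z hz
    change (z.2 * w.2 - w.2 * z.2) * s 1 = s (z.1 * w.1 - w.1 * z.1)
    rw [← h1, ← hw2, sub_mul, mul_assoc, mul_assoc w.2 z.2, h2, mul_assoc w.2 (s 1)]
  · intro z hz hzz ht
    refine ⟨hz, ?_⟩
    have hz1 : z.1 * z.1 = z.1 := congrArg Prod.fst hzz
    have hz2 : z.2 * z.2 = z.2 := congrArg Prod.snd hzz
    obtain ⟨Q, hQdef⟩ : ∃ Q, Q = z.2 * s 1 - s z.1 := ⟨_, rfl⟩
    have hQc : ∀ x, Q * s x = s x * Q := by
      intro x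
      have h1 := hs.br z hz x
      rw [map_sub, hs.mul, hs.mul] at h1
      have h2 := hcz z hz
      rw [sub_eq_iff_eq_add] at h1
      rw [hQdef, sub_mul, mul_sub, mul_assoc, hC1, h2, ← mul_assoc, hC2, h1]
      abel
    have hQ1 : Q * s 1 = Q := by
      rw [hQdef, sub_mul, mul_assoc, hC1, hC2]
    have hmain : (2 : E) • (Q * s z.1) = Q - Q * Q := by
      have h1 : z.2 * s 1 = Q + s z.1 := by rw [hQdef]; abel
      have h2 : (z.2 * s 1) * (z.2 * s 1) = z.2 * s 1 := by
        calc (z.2 * s 1) * (z.2 * s 1) = z.2 * (s 1 * z.2) * s 1 := by noncomm_ring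
          _ = z.2 * z.2 * (s 1 * s 1) := by rw [← hcz z hz]; noncomm_ring
          _ = z.2 * s 1 := by rw [hz2, hC1]
      rw [h1] at h2
      have h3 : s z.1 * s z.1 = s z.1 := by rw [← hs.mul, hz1]
      have h4 : (Q + s z.1) * (Q + s z.1) = Q * Q + (2 : E) • (Q * s z.1) + s z.1 := by
        rw [add_mul, mul_add, mul_add, h3, ← hQc z.1, two_smul]
        abel
      rw [h4] at h2
      exact eq_sub_of_add_eq' (add_right_cancel h2)
    -- nonscalar
    obtain ⟨x, hx⟩ : ∃ x : M2 E, z.1 * x - x * z.1 ≠ 0 := by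
      by_contra hcon
      push Not at hcon
      have h1 := scalar_of_commutes (n := z.1) (fun m => sub_eq_zero.mp (hcon m))
      rw [h1, Matrix.trace_smul, Matrix.trace_one, Fintype.card_fin] at ht
      have h2 := congrFun (congrFun hz1 0) 0
      rw [h1] at h2
      generalize z.1 0 0 = c at h2 ht
      simp only [smul_eq_mul, Nat.cast_ofNat] at ht
      simp at h2
      have h8 : (1 : E) - 2 = 0 := by
        linear_combination 4 * h2 - (c * 2 + 1) * ht + 2 * ht
      norm_num at h8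
    have h5 : Q * s (z.1 * x - x * z.1) = 0 := by
      have h7 : (2 : E) • (Q * s (z.1 * x - x * z.1)) = 0 := by
        have h9 : (2 : E) • (Q * (s z.1 * s x)) = s x * (Q - Q * Q) := by
          rw [← mul_assoc, ← smul_mul_assoc, hmain, sub_mul, mul_sub, hQc x, mul_assoc Q Q, hQc x,
            ← mul_assoc Q, hQc x, mul_assoc]
        have h10 : (2 : E) • (Q * (s x * s z.1)) = s x * (Q - Q * Q) := by
          rw [← mul_assoc, hQc x, mul_assoc, ← mul_smul_comm, hmain]
        rw [map_sub, hs.mul, hs.mul, mul_sub, smul_sub, h9, h10, sub_self]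
      exact (smul_eq_zero.mp h7).resolve_left two_ne_zero
    have h6 := delta_ideal hs.mul hQc hQ1 hx h5
    rw [hQdef] at h6
    exact sub_eq_zero.mp h6

end Pool.Agent.Helper37.Af
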