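import Pool.Agent.Helper37.Af.Data
import Pool.Agent.Helper27.FM.Main3

/-!
# Project Af (MP_6cbef8_nt), module Diff: differentiating the occurrence of the adjoint representation

PLAN. Let `(B, f)` be as in `AdOccurs V T`. (1) For `z` in `infinitesimal p V T` and `b ∈ B`: `z.2 * b - b * z.2 ∈ B` and `f` of it is `z.1 * f b - f b * z.1`.
For `x ∈ G` and `b ∈ B`, iterate: `x_k = x ^ (p ^ k)`: `T x_k * b * T x_k⁻¹ ∈ B` and `f (...) = V x_k * f b * V x_k⁻¹`; subtract `b`, divide by `p ^ k`, take the limit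
as in the proof of `ASp_bracket` (Helper27/FM/Abs.lean): `(p^k)⁻¹ • (R x_k * b * R x_k⁻¹ - b) → z * b - b * z` (for `R = pair V T` and, on both components,
`b = (f b, b)`): the subspace `Γ = {(f b, b) | b ∈ B}` of `M_2 × M_n` (graph, closed since finite dimensional) is normalised by all `pair V T g`,
so `z * γ - γ * z ∈ Γ` for `γ ∈ Γ` and `z` a logarithm (one needs a logarithm of `x⁻¹` or just `R x_k⁻¹ → 1`: `R x_k → 1` by `atendsto_one`, and inverses: entries are
continuous, `(V g)⁻¹`, `T g⁻¹`; or use `R x⁻¹` has logarithm `- z`: `R x_k⁻¹ - 1 = - R x_k⁻¹ (R x_k - 1)`).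
(2) If `z.2 = 0` then `z.1 * f b - f b * z.1 = f (0) = 0` for all `b`; the range of `f` is a nonzero subspace of trace zero matrices normalised by `V`, so contains all
trace zero matrices by `hV`; a matrix commuting with these (and with `1`) is scalar (`scalar_of_commutes`, Helper27/FM/Mat.lean).
-/

set_option autoImplicit false

namespace Pool.Agent.Helper37.Af

open Pool.Agent.Helper27.FM Matrix Filter Topology

private lemma diff_inv {F : Type*} [NormedField F] {m : ℕ}
    {a c : ℕ → Matrix (Fin m) (Fin m) F} (h : ∀ k, a k * c k = 1)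
    (ha : Tendsto a atTop (𝓝 1)) : Tendsto c atTop (𝓝 1) := by
  have h1 : ∀ k, (a k).det⁻¹ • (a k).adjugate = c k := by
    intro k
    rw [← Matrix.inv_eq_right_inv (h k), Matrix.inv_def, Ring.inverse_eq_inv']
  have h2 : Tendsto (fun k => (a k).det) atTop (𝓝 1) := by
    have h3 : Continuous fun z : Matrix (Fin m) (Fin m) F => z.det :=
      Continuous.matrix_det continuous_id
    have h4 := (h3.tendsto 1).comp ha
    rw [Matrix.det_one] at h4
    exact h4
  have h5 : Tendsto (fun k => (a k).adjugate) atTop (𝓝 1) := by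
    have h3 : Continuous fun z : Matrix (Fin m) (Fin m) F => z.adjugate :=
      Continuous.matrix_adjugate continuous_id
    have h4 := (h3.tendsto 1).comp ha
    rw [Matrix.adjugate_one] at h4
    exact h4
  have h6 := (h2.inv₀ one_ne_zero).smul h5
  rw [inv_one, one_smul] at h6
  exact h6.congr h1

private lemma diff_scalar {F : Type*} [Field F] {n : M2 F}
    (h1 : n * single 0 1 1 = single 0 1 1 * n) (h2 : n * single 1 0 1 = single 1 0 1 * n) :
    n = n 0 0 • (1 : M2 F) := by
  have a := congrFun (congrFun h1 0) 1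
  have b := congrFun (congrFun h1 0) 0
  have c := congrFun (congrFun h2 0) 0
  simp [Matrix.mul_apply, Matrix.single] at a b c
  have b' := b.symm
  apply ext2 <;> simp [a, b', c]

variable {E : Type*} [NontriviallyNormedField E] [CompleteSpace E] (p : ℕ)
  [hp : Fact p.Prime] [NormedAlgebra ℚ_[p] E] {G : Type*} [Group G]
  {n : ℕ} {V : G →* GL (Fin 2) E} {T : G →* GL (Fin n) E}

include hp in
private lemma diff_bracket {Γ : Submodule E (M2 E × Mn E n)}
    (hΓ : ∀ g, ∀ γ ∈ Γ, pair V T g * γ * pair V T g⁻¹ ∈ Γ) {z : M2 E × Mn E n}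
    (hz : z ∈ infinitesimal p V T) {γ : M2 E × Mn E n} (hγ : γ ∈ Γ) : z * γ - γ * z ∈ Γ := by
  have hclosed : IsClosed (Γ : Set (M2 E × Mn E n)) := Submodule.closed_of_finiteDimensional _
  unfold infinitesimal at hz
  induction hz using Submodule.span_induction with
  | mem z hz =>
    obtain ⟨x, hz⟩ := hz
    have h1 : Tendsto (fun k : ℕ => ((p : E) ^ k)⁻¹ • (pair V T x ^ (p ^ k) - 1)) atTop (𝓝 z) := hz
    have h0 : Tendsto (fun k : ℕ => pair V T x ^ (p ^ k)) atTop (𝓝 1) :=
      atendsto_one (E := E) p h1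
    have e0 : ∀ k : ℕ, (pair V T x ^ (p ^ k)) * (pair V T x⁻¹ ^ (p ^ k)) = 1 := by
      intro k
      rw [← map_pow, ← map_pow, ← map_mul, inv_pow, mul_inv_cancel, map_one]
    have h2 : Tendsto (fun k : ℕ => pair V T x⁻¹ ^ (p ^ k)) atTop (𝓝 1) := by
      rw [Prod.tendsto_iff] at h0 ⊢
      refine ⟨diff_inv (a := fun k => (pair V T x ^ (p ^ k)).1) (fun k => ?_) h0.1,
        diff_inv (a := fun k => (pair V T x ^ (p ^ k)).2) (fun k => ?_) h0.2⟩
      · exact congrArg Prod.fst (e0 k)
      · exact congrArg Prod.snd (e0 k)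
    refine hclosed.mem_of_tendsto
      (f := fun k : ℕ => ((p : E) ^ k)⁻¹ •
        (pair V T (x ^ (p ^ k)) * γ * pair V T (x ^ (p ^ k))⁻¹ - γ))
      (b := atTop) ?_ (Eventually.of_forall fun k => ?_)
    · have h3 := ((h1.mul_const γ).sub (h1.const_mul γ)).mul h2
      rw [mul_one] at h3
      refine h3.congr fun k => ?_
      have e1 : pair V T (x ^ (p ^ k)) * γ * pair V T (x ^ (p ^ k))⁻¹ =
          (pair V T x ^ (p ^ k)) * γ * (pair V T x⁻¹ ^ (p ^ k)) := by
        rw [map_pow, ← inv_pow, map_pow]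
      rw [e1]
      have e2 := e0 k
      set S := pair V T x ^ (p ^ k)
      set T' := pair V T x⁻¹ ^ (p ^ k)
      rw [smul_mul_assoc, mul_smul_comm, ← smul_sub, smul_mul_assoc]
      congr 1
      calc ((S - 1) * γ - γ * (S - 1)) * T' = S * γ * T' - γ * (S * T') := by noncomm_ring
        _ = _ := by rw [e2, mul_one]
    · exact Submodule.smul_mem _ _ (Submodule.sub_mem _ (hΓ _ _ hγ) hγ)
  | zero => simp
  | add a a' _ _ ha ha' =>
    have : (a + a') * γ - γ * (a + a') = (a * γ - γ * a) + (a' * γ - γ * a') := by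
      rw [add_mul, mul_add]; abel
    rw [this]; exact Submodule.add_mem _ ha ha'
  | smul c a _ ha =>
    have : (c • a) * γ - γ * (c • a) = c • (a * γ - γ * a) := by
      rw [smul_mul_assoc, mul_smul_comm, smul_sub]
    rw [this]; exact Submodule.smul_mem _ _ ha

theorem scalar_of_adOccurs (hV : AdSimple V) (hocc : AdOccurs V T) :
    ∀ z ∈ infinitesimal p V T, z.2 = 0 → ∃ c : E, z.1 = c • (1 : M2 E) := by
  intro z hz hz2
  obtain ⟨B, f, hf, htr, hact⟩ := hocc
  let F : B →ₗ[E] M2 E × Mn E n := LinearMap.prod f B.subtype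
  have hFΓ : ∀ g, ∀ γ ∈ LinearMap.range F, pair V T g * γ * pair V T g⁻¹ ∈ LinearMap.range F := by
    rintro g γ ⟨b, rfl⟩
    obtain ⟨b', hb1, hb2⟩ := hact g b
    refine ⟨b', ?_⟩
    have e1 : (pair V T g⁻¹) = ((((V g)⁻¹ : GL (Fin 2) E) : M2 E),
        (((T g)⁻¹ : GL (Fin n) E) : Mn E n)) := by
      change (((V g⁻¹ : GL (Fin 2) E) : M2 E), ((T g⁻¹ : GL (Fin n) E) : Mn E n)) = _
      rw [map_inv, map_inv]
    rw [e1]
    exact Prod.ext hb2 hb1
  have hcomm : ∀ b : B, z.1 * f b = f b * z.1 := by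
    intro b
    obtain ⟨b', hb'⟩ := diff_bracket p hFΓ hz (γ := F b) ⟨b, rfl⟩
    have h1 : f b' = z.1 * f b - f b * z.1 := congrArg Prod.fst hb'
    have h2 : (b' : Mn E n) = z.2 * (b : Mn E n) - (b : Mn E n) * z.2 := congrArg Prod.snd hb'
    rw [hz2, zero_mul, mul_zero, sub_zero] at h2
    have h3 : b' = 0 := Subtype.ext h2
    rw [h3, map_zero] at h1
    exact (sub_eq_zero.mp h1.symm)
  have hall : ∀ a : M2 E, a.trace = 0 → a ∈ LinearMap.range f := by
    apply hV
    · rintro a ⟨b, rfl⟩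
      exact htr b
    · rintro g a ⟨b, rfl⟩
      obtain ⟨b', hb1, hb2⟩ := hact g b
      exact ⟨b', hb2⟩
    · by_contra hc
      push Not at hc
      apply hf
      ext1 b
      exact hc (f b) ⟨b, rfl⟩
  refine ⟨z.1 0 0, diff_scalar ?_ ?_⟩
  · obtain ⟨b, hb⟩ := hall (single 0 1 1) (by simp)
    rw [← hb]
    exact hcomm b
  · obtain ⟨b, hb⟩ := hall (single 1 0 1) (by simp)
    rw [← hb]
    exact hcomm b

end Pool.Agent.Helper37.Af
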