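import Pool.Agent.Helper37.Af.Data

/-!
# Project Af (MP_6cbef8_nt), module Emb: the embedding of `V` in `T`

PLAN. `s (single 0 0 1) ≠ 0` (otherwise `s (single i j 1) = s (single i 0 1) * s (single 0 0 1) * s (single 0 j 1) = 0` for all `i j`, so `s = 0`). Take a vector
`v` with `u = s (single 0 0 1) *ᵥ v ≠ 0`; `s (single 0 0 1) *ᵥ u = u`. Let `j` be the matrix whose column `i` is `s (single i 0 1) *ᵥ u`, so
`j *ᵥ a = s (a 0 • single 0 0 1 + a 1 • single 1 0 1) *ᵥ u`. For `g ∈ U`: `T g * j = j * V g`: column `i`: `T g * s (single i 0 1) u = T g * s 1 * s (single i 0 1) u =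
s (V g * single i 0 1) u = ∑ k, V g k i • s (single k 0 1) u`. Injective: if `j *ᵥ a = 0`, multiply by `s (single 0 i 1)`:
`s (single 0 i 1) * s (∑ k, a k • single k 0 1) u = a i • s (single 0 0 1) u = a i • u`, so `a i = 0`.
-/

set_option autoImplicit false

namespace Pool.Agent.Helper37.Af

open Pool.Agent.Helper27.FM Matrix

section

variable {E : Type*} [Field E] {n : ℕ} {s : M2 E →ₗ[E] Mn E n}

private theorem emb_ne (hs0 : s ≠ 0) (hs : ∀ x y, s (x * y) = s x * s y) :
    s (single 0 0 1) ≠ 0 := by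
  intro h0
  apply hs0
  have h1 : ∀ i j : Fin 2, s (single i j 1) = 0 := by
    intro i j
    have e : (single i j 1 : M2 E) = single i 0 1 * single 0 0 1 * single 0 j 1 := by
      rw [single_mul_single_same, single_mul_single_same, one_mul, one_mul]
    rw [e, hs, hs, h0, mul_zero, zero_mul]
  apply LinearMap.ext
  intro x
  rw [matrix_eq_sum_single x, map_sum, LinearMap.zero_apply]
  refine Finset.sum_eq_zero fun i _ => ?_
  rw [map_sum]
  refine Finset.sum_eq_zero fun j _ => ?_
  have e : (single i j (x i j) : M2 E) = x i j • single i j 1 := by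
    rw [smul_single, smul_eq_mul, mul_one]
  rw [e, map_smul, h1, smul_zero]

end

theorem contained_of_eq {E : Type*} [Field E] {G : Type*} [Group G] [TopologicalSpace G] {n : ℕ}
    {V : G →* GL (Fin 2) E} {T : G →* GL (Fin n) E} {s : M2 E →ₗ[E] Mn E n} (hs0 : s ≠ 0)
    (hs : ∀ x y, s (x * y) = s x * s y) {U : Subgroup G} (hU : IsOpen (U : Set G))
    (h : ∀ g ∈ U, (T g : Mn E n) * s 1 = s (V g : M2 E)) : PotentiallyContained V T := by
  have hne := emb_ne hs0 hs
  obtain ⟨v, hv⟩ : ∃ v : Fin n → E, s (single 0 0 1) *ᵥ v ≠ 0 := by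
    by_contra hcon
    push Not at hcon
    apply hne
    apply Matrix.ext_of_mulVec_single
    intro i
    rw [hcon, zero_mulVec]
  set u := s (single 0 0 1) *ᵥ v with hu
  have huu : s (single 0 0 1) *ᵥ u = u := by
    rw [hu, mulVec_mulVec, ← hs, single_mul_single_same, one_mul]
  let j : Matrix (Fin n) (Fin 2) E := Matrix.of fun a i => (s (single i 0 1) *ᵥ u) a
  have hj : ∀ w : Fin 2 → E, j *ᵥ w = s (∑ i, w i • single i 0 1) *ᵥ u := by
    intro w
    rw [map_sum, sum_mulVec]
    funext a
    rw [Finset.sum_apply]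
    change ∑ i, (s (single i 0 1) *ᵥ u) a * w i = _
    refine Finset.sum_congr rfl fun i _ => ?_
    rw [map_smul, smul_mulVec, Pi.smul_apply, smul_eq_mul, mul_comm]
  have hk : ∀ (w : Fin 2 → E) (i : Fin 2), s (single 0 i 1) *ᵥ (j *ᵥ w) = w i • u := by
    intro w i
    rw [hj, mulVec_mulVec, ← hs]
    have e : (single 0 i 1 : M2 E) * (∑ k, w k • single k 0 1) = w i • single 0 0 1 := by
      rw [Finset.mul_sum, Finset.sum_eq_single i]
      · rw [mul_smul_comm, single_mul_single_same, one_mul]
      · intro k _ hki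
        rw [mul_smul_comm, single_mul_single_of_ne _ _ _ _ (Ne.symm hki), smul_zero]
      · intro hi
        exact absurd (Finset.mem_univ i) hi
    rw [e, map_smul, smul_mulVec, huu]
  refine ⟨U, hU, j, ?_, ?_⟩
  · intro w w' hww
    funext i
    have h1 := hk w i
    have h2 := hk w' i
    have h3 : j *ᵥ w = j *ᵥ w' := hww
    rw [h3, h2] at h1
    by_contra hcon
    apply hv
    have h4 : (w i - w' i) • u = 0 := by rw [sub_smul, h1, sub_self]
    exact (smul_eq_zero.mp h4).resolve_left (sub_ne_zero.mpr hcon)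
  · intro g hg
    apply Matrix.ext_of_mulVec_single
    intro i
    rw [← mulVec_mulVec, ← mulVec_mulVec, hj, hj]
    have h1 : s (∑ k, (Pi.single i (1 : E) : Fin 2 → E) k • single k 0 1) =
        s 1 * s (∑ k, (Pi.single i (1 : E) : Fin 2 → E) k • single k 0 1) := by
      rw [← hs, one_mul]
    rw [h1, mulVec_mulVec, ← mul_assoc, h g hg, ← hs]
    congr 2
    rw [Finset.mul_sum]
    ext a b
    fin_cases b <;> fin_cases i <;>
      simp [Matrix.mul_apply, Fin.sum_univ_two, Matrix.single, Matrix.sum_apply]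

end Pool.Agent.Helper37.Af
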