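import Pool.Agent.Helper37.Af.Mult

/-!
# Project Af (MP_6cbef8_nt), module HatEx: equivariance of the homomorphism `s`

PLAN. For trace zero `x` and `z ∈ L`: `z * (x, s x) - (x, s x) * z ∈ D` has first component `y = [z.1, x]` (trace zero), and `(y, s y) ∈ D`; by `inj`
(difference) they are equal; so `br` holds for trace zero `x`. For `x = 1`: `s 1 = s h * s h`, `h = diag (1, -1)`, `h * h = 1`:
`[z.2, s h * s h] = [z.2, s h] * s h + s h * [z.2, s h] = s ([z.1, h] h + h [z.1, h]) = s ([z.1, h h]) = s 0 = 0`. General `x`: `x = x₀ + c • 1`,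
`c = trace x / 2`. Similarly for `ad`: `g (x, s x) g⁻¹ ∈ D`; `s 1 = s h * s h`.
-/

set_option autoImplicit false

namespace Pool.Agent.Helper37.Af

open Pool.Agent.Helper27.FM Matrix

section

variable {E : Type*} [Field E] [CharZero E] {G : Type*} [Group G] {n : ℕ} {V : G →* GL (Fin 2) E}
  {T : G →* GL (Fin n) E} {L D : Submodule E (M2 E × Mn E n)}

/-- the element `h` -/
private def hatex_h (E : Type*) [Field E] : M2 E := !![1, 0; 0, -1]

private theorem hatex_hh : hatex_h E * hatex_h E = 1 := by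
  unfold hatex_h
  ext a b
  fin_cases a <;> fin_cases b <;> simp [Matrix.mul_apply, Fin.sum_univ_two]

private theorem hatex_ht : (hatex_h E).trace = 0 := by
  unfold hatex_h
  rw [tr_def]
  simp

/-- equality in `D` -/
private theorem hatex_eq (hD : Sec V T L D) {z w : M2 E × Mn E n} (hz : z ∈ D) (hw : w ∈ D)
    (h : z.1 = w.1) : z = w := by
  have := hD.inj (z - w) (D.sub_mem hz hw) (by rw [Prod.fst_sub, h, sub_self])
  exact sub_eq_zero.mp this

/-- the general principle: a statement for trace zero matrices and the unit matrix -/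
private theorem hatex_ind {P : M2 E → Prop} (h0 : ∀ x : M2 E, x.trace = 0 → P x) (h1 : P 1)
    (hadd : ∀ x y, P x → P y → P (x + y)) (hsm : ∀ (c : E) x, P x → P (c • x)) (x : M2 E) :
    P x := by
  have e : x = (x - (x.trace / 2) • (1 : M2 E)) + (x.trace / 2) • (1 : M2 E) := by abel
  rw [e]
  apply hadd _ _ (h0 _ _) (hsm _ _ h1)
  rw [Matrix.trace_sub, Matrix.trace_smul, Matrix.trace_one, Fintype.card_fin, smul_eq_mul]
  push_cast
  ring

end

variable {E : Type*} [Field E] [CharZero E] {G : Type*} [Group G] {n : ℕ} {V : G →* GL (Fin 2) E}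
  {T : G →* GL (Fin n) E} {L D : Submodule E (M2 E × Mn E n)}

theorem hat_of_mult (hD : Sec V T L D) (s : M2 E →ₗ[E] Mn E n) (hs : ∀ x y, s (x * y) = s x * s y)
    (hsD : ∀ x : M2 E, x.trace = 0 → (x, s x) ∈ D) : Hat V T L s := by
  have hbr0 : ∀ z ∈ L, ∀ x : M2 E, x.trace = 0 →
      z.2 * s x - s x * z.2 = s (z.1 * x - x * z.1) := by
    intro z hz x hx
    have h1 := hD.br z hz _ (hsD x hx)
    have h2 := hsD (z.1 * x - x * z.1) (trace_bracket _ _)
    have h3 := hatex_eq hD h1 h2 rfl
    exact congrArg Prod.snd h3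
  have had0 : ∀ g, ∀ x : M2 E, x.trace = 0 →
      (T g : Mn E n) * s x * (T g⁻¹ : GL (Fin n) E) =
        s ((V g : M2 E) * x * (V g⁻¹ : GL (Fin 2) E)) := by
    intro g x hx
    have h1 := hD.ad g _ (hsD x hx)
    have ht : ((V g : M2 E) * x * (V g⁻¹ : GL (Fin 2) E)).trace = 0 := by
      rw [map_inv]
      have := trace_conj (V g) x
      rw [hx] at this
      exact this
    have h2 := hsD _ ht
    have h3 := hatex_eq hD h1 h2 rfl
    exact congrArg Prod.snd h3
  have hs1 : s 1 = s (hatex_h E) * s (hatex_h E) := by rw [← hs, hatex_hh]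
  refine ⟨hs, fun x hx => hD.le (hsD x hx), fun z hz x => ?_, fun g x => ?_⟩
  · refine hatex_ind (P := fun x => z.2 * s x - s x * z.2 = s (z.1 * x - x * z.1))
      (fun x hx => hbr0 z hz x hx) ?_ ?_ ?_ x
    · have h1 := hbr0 z hz _ (hatex_ht (E := E))
      rw [mul_one, one_mul, sub_self, map_zero, hs1]
      have e : z.2 * (s (hatex_h E) * s (hatex_h E)) - s (hatex_h E) * s (hatex_h E) * z.2 =
          (z.2 * s (hatex_h E) - s (hatex_h E) * z.2) * s (hatex_h E) +
            s (hatex_h E) * (z.2 * s (hatex_h E) - s (hatex_h E) * z.2) := by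
        noncomm_ring
      rw [e, h1, ← hs, ← hs, ← map_add]
      have e2 : (z.1 * hatex_h E - hatex_h E * z.1) * hatex_h E +
          hatex_h E * (z.1 * hatex_h E - hatex_h E * z.1) =
          z.1 * (hatex_h E * hatex_h E) - (hatex_h E * hatex_h E) * z.1 := by
        noncomm_ring
      rw [e2, hatex_hh, mul_one, one_mul, sub_self, map_zero]
    · intro x y hx hy
      have e1 : z.1 * (x + y) - (x + y) * z.1 = (z.1 * x - x * z.1) + (z.1 * y - y * z.1) := by
        noncomm_ring
      change z.2 * s (x + y) - s (x + y) * z.2 = s (z.1 * (x + y) - (x + y) * z.1)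
      rw [e1, map_add s (z.1 * x - x * z.1), ← hx, ← hy, map_add]
      noncomm_ring
    · intro c x hx
      change z.2 * s (c • x) - s (c • x) * z.2 = s (z.1 * (c • x) - (c • x) * z.1)
      rw [mul_smul_comm, smul_mul_assoc, ← smul_sub, map_smul, map_smul, ← hx, mul_smul_comm,
        smul_mul_assoc, ← smul_sub]
  · refine hatex_ind (P := fun x => (T g : Mn E n) * s x * (T g⁻¹ : GL (Fin n) E) =
        s ((V g : M2 E) * x * (V g⁻¹ : GL (Fin 2) E)))
      (fun x hx => had0 g x hx) ?_ ?_ ?_ x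
    · have h1 := had0 g _ (hatex_ht (E := E))
      have hT : ((T g⁻¹ : GL (Fin n) E) : Mn E n) * (T g : Mn E n) = 1 := by
        rw [← Units.val_mul, ← map_mul, inv_mul_cancel, map_one, Units.val_one]
      have hV : ((V g⁻¹ : GL (Fin 2) E) : M2 E) * (V g : M2 E) = 1 := by
        rw [← Units.val_mul, ← map_mul, inv_mul_cancel, map_one, Units.val_one]
      have hV' : (V g : M2 E) * ((V g⁻¹ : GL (Fin 2) E) : M2 E) = 1 := by
        rw [← Units.val_mul, ← map_mul, mul_inv_cancel, map_one, Units.val_one]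
      have e : (T g : Mn E n) * s 1 * (T g⁻¹ : GL (Fin n) E) =
          ((T g : Mn E n) * s (hatex_h E) * (T g⁻¹ : GL (Fin n) E)) *
            ((T g : Mn E n) * s (hatex_h E) * (T g⁻¹ : GL (Fin n) E)) := by
        calc (T g : Mn E n) * s 1 * (T g⁻¹ : GL (Fin n) E)
            = (T g : Mn E n) * s (hatex_h E) * 1 * s (hatex_h E) * (T g⁻¹ : GL (Fin n) E) := by
              rw [hs1]; noncomm_ring
          _ = _ := by rw [← hT]; noncomm_ring
      rw [e, h1, ← hs]
      congr 1
      calc (V g : M2 E) * hatex_h E * (V g⁻¹ : GL (Fin 2) E) *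
            ((V g : M2 E) * hatex_h E * (V g⁻¹ : GL (Fin 2) E))
          = (V g : M2 E) * hatex_h E * (((V g⁻¹ : GL (Fin 2) E) : M2 E) * (V g : M2 E)) *
            hatex_h E * (V g⁻¹ : GL (Fin 2) E) := by noncomm_ring
        _ = (V g : M2 E) * (hatex_h E * hatex_h E) * (V g⁻¹ : GL (Fin 2) E) := by
            rw [hV]; noncomm_ring
        _ = _ := by rw [hatex_hh]
    · intro x y hx hy
      change (T g : Mn E n) * s (x + y) * (T g⁻¹ : GL (Fin n) E) =
        s ((V g : M2 E) * (x + y) * (V g⁻¹ : GL (Fin 2) E))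
      rw [mul_add (V g : M2 E), add_mul, map_add s _ ((V g : M2 E) * y * _), ← hx, ← hy, map_add,
        mul_add, add_mul]
    · intro c x hx
      change (T g : Mn E n) * s (c • x) * (T g⁻¹ : GL (Fin n) E) =
        s ((V g : M2 E) * (c • x) * (V g⁻¹ : GL (Fin 2) E))
      rw [mul_smul_comm, smul_mul_assoc, map_smul, map_smul, ← hx, mul_smul_comm, smul_mul_assoc]

end Pool.Agent.Helper37.Af
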