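import Pool.Agent.Helper37.Af.Data
import Pool.Agent.Helper27.FM.Main3

/-!
# Project Af (MP_6cbef8_nt), module Inf: the Lie algebra of `(V, T)` is `LieData`

PLAN. (1) `inf_eq`: `infinitesimal p V T = ASp E p (pair V T) U` for `U` open normal in the compact group `G`: `≥` clear (`ASp ... U`
is spanned by the logarithms of elements of `U`; `infinitesimal` is `ASp E p (pair V T) ⊤` up to unfolding). `≤`: `U` has finite index `m`
(`Subgroup.quotient_finite_of_isOpen`, `Subgroup.pow_index_mem` for normal subgroups), so `x ^ m ∈ U`, and if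
`((p : E) ^ k)⁻¹ • (a ^ (p ^ k) - 1) → z` (`a = pair V T x`) then with `b_k = a ^ (p ^ k)`, `b_k → 1` (`atendsto_one` in Helper27/FM/Abs.lean),
`b_k ^ m - 1 = (b_k - 1) * ∑ i ∈ range m, b_k ^ i` (`mul_geom_sum` / `geom_sum_mul`, commuting), so `((p : E) ^ k)⁻¹ • ((a ^ m) ^ (p ^ k) - 1) → m • z`;
`z = (m : E)⁻¹ • (m • z)`, `(m : E) ≠ 0` (`charZeroE p`).
(2) `small_pair`: a small open normal subgroup: from `exists_small3` (Helper27/FM/Main3.lean) with `ι = Fin 0`, `J = Unit`.
(3) `lieData_inf`: `br`: `ASp_bracket`; `ad`: `ASp_adj` (with `inf_eq`); `st`: `{z | ∀ w ∈ W, z.2 *ᵥ w ∈ W}` is a closed subspace (finite dimensional,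
`Submodule.closed_of_finiteDimensional`) and contains `((p : E) ^ k)⁻¹ • (pair V T g ^ (p ^ k) - 1)`; `ns`: as in the proof of `sl_in_span`
(Helper27/FM/Main3.lean), from `LSp_nonscalar`.
-/

set_option autoImplicit false

namespace Pool.Agent.Helper37.Af

open Pool.Agent.Helper27.FM Matrix Filter Topology

variable {E : Type*} [NontriviallyNormedField E] [IsUltrametricDist E] [CompleteSpace E] (p : ℕ)
  [hp : Fact p.Prime] [NormedAlgebra ℚ_[p] E]
  {G : Type*} [Group G] [TopologicalSpace G] [IsTopologicalGroup G] [CompactSpace G]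
  {n : ℕ} {V : G →* GL (Fin 2) E} {T : G →* GL (Fin n) E}

omit [IsUltrametricDist E] [CompleteSpace E] [TopologicalSpace G] [IsTopologicalGroup G]
  [CompactSpace G] in
private lemma log_pow {x : G} {z : M2 E × Mn E n} {m : ℕ}
    (h : Tendsto (fun k : ℕ => ((p : E) ^ k)⁻¹ • (pair V T x ^ (p ^ k) - 1)) atTop (𝓝 z)) :
    ALog E p (pair V T) (x ^ m) ((m : E) • z) := by
  have hb : Tendsto (fun k : ℕ => pair V T x ^ (p ^ k)) atTop (𝓝 1) := atendsto_one (E := E) p h
  have hsum : Tendsto (fun k : ℕ => ∑ i ∈ Finset.range m, (pair V T x ^ (p ^ k)) ^ i) atTop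
      (𝓝 (m : M2 E × Mn E n)) := by
    have h1 : Tendsto (fun k : ℕ => ∑ i ∈ Finset.range m, (pair V T x ^ (p ^ k)) ^ i) atTop
        (𝓝 (∑ i ∈ Finset.range m, (1 : M2 E × Mn E n) ^ i)) :=
      tendsto_finsetSum _ fun i _ => hb.pow i
    simpa using h1
  have h2 := hsum.mul h
  have h3 : (m : M2 E × Mn E n) * z = (m : E) • z := by
    rw [Nat.cast_smul_eq_nsmul, nsmul_eq_mul]
  rw [h3] at h2
  unfold ALog
  refine h2.congr fun k => ?_
  rw [mul_smul_comm, geom_sum_mul, map_pow, ← pow_mul, ← pow_mul, mul_comm m]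

theorem inf_eq {U : Subgroup G} (hU : U.Normal) (hUo : IsOpen (U : Set G)) :
    infinitesimal p V T = ASp E p (pair V T) U := by
  have : CharZero E := charZeroE p
  apply le_antisymm
  · unfold infinitesimal
    rw [Submodule.span_le]
    rintro z ⟨x, hx⟩
    have hfin : Finite (G ⧸ U) := Subgroup.quotient_finite_of_isOpen U hUo
    have hm : U.index ≠ 0 := Subgroup.index_ne_zero_of_finite
    have hmE : (U.index : E) ≠ 0 := Nat.cast_ne_zero.mpr hm
    have h1 : ALog E p (pair V T) (x ^ U.index) ((U.index : E) • z) := log_pow p hx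
    have h2 : (U.index : E) • z ∈ ASp E p (pair V T) U :=
      Submodule.subset_span ⟨_, Subgroup.pow_index_mem U x, h1⟩
    have h3 : z = (U.index : E)⁻¹ • ((U.index : E) • z) := by
      rw [smul_smul, inv_mul_cancel₀ hmE, one_smul]
    rw [SetLike.mem_coe, h3]
    exact Submodule.smul_mem _ _ h2
  · unfold infinitesimal ASp
    apply Submodule.span_mono
    rintro z ⟨x, _, hx⟩
    exact ⟨x, hx⟩

theorem small_pair [TotallyDisconnectedSpace G] (hV : Continuous V) (hT : Continuous T) :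
    ∃ U : Subgroup G, U.Normal ∧ IsOpen (U : Set G) ∧
      (∀ x ∈ U, ∀ i j, ‖((V x : M2 E) - 1) i j‖ ≤ (p : ℝ)⁻¹ ^ 2) ∧
      ∀ x ∈ U, ∃ z, ALog E p (pair V T) x z := by
  obtain ⟨U, hU, hUo, hs⟩ := exists_small3 (ι := Fin 0) (J := Unit) (n := fun _ => n) p
    (ρ := fun _ => V) (σ := fun _ => T) hV (fun _ => hV) (fun _ => hT)
  refine ⟨U, hU, hUo, fun x hx => (hs x hx).1, fun x hx => ?_⟩
  obtain ⟨z1, hz1⟩ := exists_log_mat p (V x : M2 E) (hs x hx).1
  obtain ⟨z2, hz2⟩ := exists_log_matn p (T x : Mn E n) ((hs x hx).2.2 ())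
  refine ⟨(z1, z2), ?_⟩
  unfold ALog
  exact hz1.prodMk_nhds hz2

theorem lieData_inf [TotallyDisconnectedSpace G] (hV : Continuous V) (hT : Continuous T)
    (hirr : StronglyIrreducible V) : LieData V T (infinitesimal p V T) := by
  have : CharZero E := charZeroE p
  obtain ⟨U, hU, hUo, hs, hlog⟩ := small_pair p (V := V) (T := T) hV hT
  have heq := inf_eq p (V := V) (T := T) hU hUo
  refine ⟨?_, ?_, ?_, ?_⟩
  · intro z hz w hw
    rw [heq] at hz hw ⊢
    exact ASp_bracket p hU hlog hz hw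
  · intro g z hz
    rw [heq] at hz ⊢
    exact ASp_adj hU g hz
  · intro W hW z hz w hw
    have hWc : IsClosed (W : Set (Fin n → E)) := Submodule.closed_of_finiteDimensional W
    unfold infinitesimal at hz
    induction hz using Submodule.span_induction with
    | mem z hz =>
      obtain ⟨x, hx⟩ := hz
      have h1 : Tendsto (fun k : ℕ => (((p : E) ^ k)⁻¹ • (pair V T x ^ (p ^ k) - 1)).2.mulVec w)
          atTop (𝓝 (z.2.mulVec w)) := by
        have hcont : Continuous fun y : M2 E × Mn E n => y.2.mulVec w :=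
          continuous_snd.matrix_mulVec continuous_const
        exact (hcont.tendsto z).comp hx
      refine hWc.mem_of_tendsto h1 (Eventually.of_forall fun k => ?_)
      have h2 : (((p : E) ^ k)⁻¹ • (pair V T x ^ (p ^ k) - 1)).2.mulVec w =
          ((p : E) ^ k)⁻¹ • ((T (x ^ (p ^ k)) : Mn E n).mulVec w - w) := by
        have h3 : (((p : E) ^ k)⁻¹ • (pair V T x ^ (p ^ k) - 1)).2 =
            ((p : E) ^ k)⁻¹ • ((T (x ^ (p ^ k)) : Mn E n) - 1) := by
          rw [← map_pow]; rfl
        rw [h3, Matrix.smul_mulVec, Matrix.sub_mulVec, Matrix.one_mulVec]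
      rw [SetLike.mem_coe, h2]
      exact W.smul_mem _ (W.sub_mem (hW _ w hw) hw)
    | zero => simp
    | add a b _ _ ha hb => rw [Prod.snd_add, Matrix.add_mulVec]; exact W.add_mem ha hb
    | smul c a _ ha => rw [Prod.smul_snd, Matrix.smul_mulVec]; exact W.smul_mem _ ha
  · have hsm : ∀ x ∈ U, Small p (fun _ : Unit => V) x := fun x hx _ => hs x hx
    obtain ⟨z, hz, hzn⟩ := LSp_nonscalar p (R := fun _ : Unit => V) hU hUo hsm () hirr
    by_contra hcon
    push Not at hcon
    have hall : ∀ w ∈ LSp p (fun _ : Unit => V) U, ∃ c : E, w () = c • (1 : M2 E) := by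
      intro w hw
      unfold LSp at hw
      induction hw using Submodule.span_induction with
      | mem w hw =>
        obtain ⟨x, hx, hw⟩ := hw
        obtain ⟨y, hy⟩ := hlog x hx
        obtain ⟨c, hc⟩ := hcon y (by rw [heq]; exact Submodule.subset_span ⟨x, hx, hy⟩)
        refine ⟨c, ?_⟩
        have h1 := (continuous_fst.tendsto y).comp hy
        rw [hc] at h1
        have h2 : Tendsto (fun m : ℕ => ((p : E) ^ m)⁻¹ • ((V x : M2 E) ^ (p ^ m) - 1)) atTop
            (𝓝 (c • 1)) := h1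
        exact tendsto_nhds_unique (hw ()) h2
      | zero => exact ⟨0, by simp⟩
      | add a b _ _ ha hb =>
        obtain ⟨c, hc⟩ := ha
        obtain ⟨d, hd⟩ := hb
        exact ⟨c + d, by rw [Pi.add_apply, hc, hd, add_smul]⟩
      | smul t a _ ha =>
        obtain ⟨c, hc⟩ := ha
        exact ⟨t * c, by rw [Pi.smul_apply, hc, smul_smul]⟩
    obtain ⟨c, hc⟩ := hall z hz
    exact hzn c hc

end Pool.Agent.Helper37.Af
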