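import Pool.Agent.Helper37.Af.Data
import Mathlib.MeasureTheory.Measure.Haar.Basic

/-!
# Project Af (MP_6cbef8_nt), module Rel1: containment gives a polynomial relation

PLAN. `P = det (Y² - (trace X) Y + (det X) 1)`, where `X`, `Y` are the matrices of variables `X (inl (a, b))`, `X (inr ⟨j, (c, d)⟩)`. Its value at `ent x z` is
`det (z j ^ 2 - trace x • z j + det x • 1)` (`RingHom.map_det`, `map_sum` etc.). (1) For `g ∈ U`: `M = T g ^ 2 - tr (V g) • T g + det (V g) • 1` satisfies
`M * j = j * (V g ^ 2 - tr (V g) V g + det (V g)) = 0` (Cayley-Hamilton for size two), and `j ≠ 0` has a nonzero column, so `det M = 0`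
(`Matrix.exists_mulVec_eq_zero_iff`). (2) Some `x` of determinant `δ = det (V g)` has `P(x, T g) ≠ 0`: `t ↦ det (Y ^ 2 - t • Y + δ • 1)` for `Y = T g` invertible:
`Y ^ 2 - t Y + δ = - Y (t - (Y + δ Y⁻¹))`, and `det (t - N) = N.charpoly.eval t` is nonzero for some `t` (`E` infinite: `Polynomial.exists_eval_ne_zero_of_...`,
charpoly is monic); `x = !![0, -δ; 1, t]`. (3) The set contains the nonempty open set `U`, which has positive Haar measure (`IsOpen.measure_ne_zero`).
-/

set_option autoImplicit false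

namespace Pool.Agent.Helper37.Af

open Pool.Agent.Helper27.FM Matrix MeasureTheory

private lemma rel1_mapSmul {R S : Type*} [CommRing R] [CommRing S] (φ : R →+* S) {n : ℕ} (c : R)
    (M : Matrix (Fin n) (Fin n) R) : φ.mapMatrix (c • M) = φ c • φ.mapMatrix M := by
  ext a b
  simp [RingHom.mapMatrix_apply]

/-- the generic matrix of size two -/
private noncomputable def rel1X {E : Type*} [Field E] {J : Type*} {n : J → ℕ} :
    Matrix (Fin 2) (Fin 2)
      (MvPolynomial ((Fin 2 × Fin 2) ⊕ (Σ j : J, Fin (n j) × Fin (n j))) E) :=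
  Matrix.of fun a b => MvPolynomial.X (Sum.inl (a, b))

/-- the generic matrix of size `n j` -/
private noncomputable def rel1Y {E : Type*} [Field E] {J : Type*} {n : J → ℕ} (j : J) :
    Matrix (Fin (n j)) (Fin (n j))
      (MvPolynomial ((Fin 2 × Fin 2) ⊕ (Σ j : J, Fin (n j) × Fin (n j))) E) :=
  Matrix.of fun c d => MvPolynomial.X (Sum.inr ⟨j, (c, d)⟩)

/-- the polynomial -/
private noncomputable def rel1P {E : Type*} [Field E] {J : Type*} {n : J → ℕ} (j : J) :
    MvPolynomial ((Fin 2 × Fin 2) ⊕ (Σ j : J, Fin (n j) × Fin (n j))) E :=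
  ((rel1Y j) ^ 2 - (rel1X (E := E) (n := n)).trace • (rel1Y j) +
      (rel1X (E := E) (n := n)).det • (1 : Matrix (Fin (n j)) (Fin (n j)) _)).det

private lemma rel1P_eval {E : Type*} [Field E] {J : Type*} {n : J → ℕ} (j : J)
    (x : Matrix (Fin 2) (Fin 2) E) (z : ∀ j : J, Matrix (Fin (n j)) (Fin (n j)) E) :
    MvPolynomial.eval (ent x z) (rel1P (E := E) (n := n) j) =
      (z j ^ 2 - x.trace • z j + x.det • (1 : Matrix (Fin (n j)) (Fin (n j)) E)).det := by
  have h1 : (MvPolynomial.eval (ent x z)).mapMatrix (rel1Y (E := E) (n := n) j) = z j := by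
    ext c d
    simp [RingHom.mapMatrix_apply, ent, rel1Y]
  have h2 : (MvPolynomial.eval (ent x z)).mapMatrix (rel1X (E := E) (n := n)) = x := by
    ext c d
    simp [RingHom.mapMatrix_apply, ent, rel1X]
  have h3 : MvPolynomial.eval (ent x z) (rel1X (E := E) (n := n)).trace = x.trace := by
    rw [Matrix.trace_fin_two, Matrix.trace_fin_two, map_add]
    simp [ent, rel1X]
  rw [rel1P, RingHom.map_det, map_add, map_sub, map_pow, rel1_mapSmul, rel1_mapSmul, h1, h3,
    RingHom.map_det, h2, map_one]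

private lemma rel1_cayley {E : Type*} [Field E] (A : Matrix (Fin 2) (Fin 2) E) :
    A ^ 2 - A.trace • A + A.det • (1 : Matrix (Fin 2) (Fin 2) E) = 0 := by
  ext a b
  fin_cases a <;> fin_cases b <;>
    simp [pow_two, Matrix.mul_apply, Fin.sum_univ_two, Matrix.trace_fin_two, Matrix.det_fin_two]
      <;> ring

private lemma rel1_det {E : Type*} [Field E] {n : ℕ} {A : Matrix (Fin 2) (Fin 2) E}
    {B : Matrix (Fin n) (Fin n) E} {jm : Matrix (Fin n) (Fin 2) E}
    (hj : Function.Injective jm.mulVec) (h : B * jm = jm * A) :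
    (B ^ 2 - A.trace • B + A.det • (1 : Matrix (Fin n) (Fin n) E)).det = 0 := by
  have h2 : (B ^ 2 - A.trace • B + A.det • (1 : Matrix (Fin n) (Fin n) E)) * jm = 0 := by
    have h3 : B ^ 2 * jm = jm * A ^ 2 := by
      rw [pow_two, pow_two, Matrix.mul_assoc, h, ← Matrix.mul_assoc, h, Matrix.mul_assoc]
    rw [Matrix.add_mul, Matrix.sub_mul, Matrix.smul_mul, Matrix.smul_mul, h3, h, Matrix.one_mul]
    have h4 := congrArg (fun Z => jm * Z) (rel1_cayley A)
    simp only [Matrix.mul_add, Matrix.mul_sub, Matrix.mul_smul, Matrix.mul_zero,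
      Matrix.mul_one] at h4
    exact h4
  apply Matrix.exists_mulVec_eq_zero_iff.mp
  refine ⟨jm.mulVec (Pi.single 0 1), ?_, ?_⟩
  · intro h5
    have h6 : (Pi.single 0 1 : Fin 2 → E) = 0 := by
      apply hj
      rw [h5, Matrix.mulVec_zero]
    have h7 := congrFun h6 0
    simp at h7
  · rw [Matrix.mulVec_mulVec, h2, Matrix.zero_mulVec]

private lemma rel1_exists {E : Type*} [Field E] [CharZero E] {n : ℕ} (B : GL (Fin n) E) (δ : E) :
    ∃ t : E, ((B : Matrix (Fin n) (Fin n) E) ^ 2 - t • (B : Matrix (Fin n) (Fin n) E) +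
      δ • (1 : Matrix (Fin n) (Fin n) E)).det ≠ 0 := by
  set N : Matrix (Fin n) (Fin n) E := (B : Matrix (Fin n) (Fin n) E) +
    δ • ((B⁻¹ : GL (Fin n) E) : Matrix (Fin n) (Fin n) E) with hN
  have h1 : ∃ t : E, N.charpoly.eval t ≠ 0 := by
    by_contra hc
    push Not at hc
    have h2 : N.charpoly = 0 := by
      apply Polynomial.funext
      intro r
      rw [hc r, Polynomial.eval_zero]
    exact (Matrix.charpoly_monic N).ne_zero h2
  obtain ⟨t, ht⟩ := h1
  refine ⟨t, ?_⟩
  rw [Matrix.eval_charpoly] at ht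
  have h3 : (B : Matrix (Fin n) (Fin n) E) ^ 2 - t • (B : Matrix (Fin n) (Fin n) E) +
      δ • (1 : Matrix (Fin n) (Fin n) E) =
      (-(B : Matrix (Fin n) (Fin n) E)) * (Matrix.scalar (Fin n) t - N) := by
    have h4 : (B : Matrix (Fin n) (Fin n) E) * ((B⁻¹ : GL (Fin n) E) : Matrix (Fin n) (Fin n) E)
        = 1 := by
      rw [← Units.val_mul, mul_inv_cancel, Units.val_one]
    have h5 : Matrix.scalar (Fin n) t = t • (1 : Matrix (Fin n) (Fin n) E) := by
      rw [Matrix.smul_one_eq_diagonal]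
      rfl
    rw [h5, hN, mul_sub, neg_mul, neg_mul, mul_add, Matrix.mul_smul, Matrix.mul_smul, h4,
      Matrix.mul_one, pow_two]
    abel
  rw [h3, Matrix.det_mul]
  refine mul_ne_zero ?_ ht
  rw [Matrix.det_neg]
  refine mul_ne_zero (pow_ne_zero _ (by simp)) ?_
  have h6 : IsUnit (B : Matrix (Fin n) (Fin n) E).det :=
    (Matrix.isUnit_iff_isUnit_det _).mp B.isUnit
  exact h6.ne_zero

theorem related_of_contained {E : Type*} [Field E] [CharZero E] {G : Type*} [Group G]
    [TopologicalSpace G] [IsTopologicalGroup G] [MeasurableSpace G] [BorelSpace G]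
    (μ : Measure G) [μ.IsHaarMeasure] {J : Type*} {n : J → ℕ} {V : G →* GL (Fin 2) E}
    {T : ∀ j, G →* GL (Fin (n j)) E} (j : J) (h : PotentiallyContained V (T j)) :
    PolynomiallyRelated μ V T := by
  obtain ⟨U, hU, jm, hj, hjm⟩ := h
  refine ⟨rel1P j, ?_⟩
  intro h0
  have hne : μ (U : Set G) ≠ 0 := hU.measure_ne_zero μ ⟨1, U.one_mem⟩
  apply hne
  refine measure_mono_null ?_ h0
  intro g hg
  refine ⟨?_, ?_⟩
  · rw [rel1P_eval]
    exact rel1_det hj (hjm g hg)
  · obtain ⟨t, ht⟩ := rel1_exists (T j g) (V g : Matrix (Fin 2) (Fin 2) E).det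
    refine ⟨!![0, -(V g : Matrix (Fin 2) (Fin 2) E).det; 1, t], ?_, ?_⟩
    · rw [Matrix.det_fin_two_of]
      ring
    · rw [rel1P_eval]
      have h1 : (!![0, -(V g : Matrix (Fin 2) (Fin 2) E).det; 1, t]).trace = t := by
        rw [Matrix.trace_fin_two_of]
        ring
      have h2 : (!![0, -(V g : Matrix (Fin 2) (Fin 2) E).det; 1, t]).det =
          (V g : Matrix (Fin 2) (Fin 2) E).det := by
        rw [Matrix.det_fin_two_of]
        ring
      rw [h1, h2]
      exact ht

end Pool.Agent.Helper37.Af
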