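import Pool.Agent.Helper37.Af.Section
import Pool.Agent.Helper37.Af.HatEx
import Pool.Agent.Helper37.Af.Delta
import Pool.Agent.Helper37.Af.Close
import Pool.Agent.Helper37.Af.Emb
import Pool.Agent.Helper37.Af.Inf
import Pool.Agent.Helper37.Af.Diff
import Pool.Agent.Helper37.Af.Rel1
import Pool.Agent.Helper37.Af.Rel2

/-!
# Project Af (MP_6cbef8_nt): assembly
-/

set_option autoImplicit false

namespace Pool.Agent.Helper37.Af

open Pool.Agent.Helper27.FM Matrix MeasureTheory Filter Topology

section

variable {E : Type*} [NontriviallyNormedField E] [IsUltrametricDist E] [CompleteSpace E] (p : ℕ)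
  [hp : Fact p.Prime] [NormedAlgebra ℚ_[p] E]
  {G : Type*} [Group G] [TopologicalSpace G] [IsTopologicalGroup G] [CompactSpace G]
  [TotallyDisconnectedSpace G] {n : ℕ} {V : G →* GL (Fin 2) E} {T : G →* GL (Fin n) E}

include hp in
theorem contained_of_adOccurs (hV : Continuous V) (hirr : StronglyIrreducible V)
    (hT : Continuous T) (hss : Semisimple T) (hgen : IdempotentGenerated p V T)
    (hocc : AdOccurs V T) : PotentiallyContained V T := by
  have : CharZero E := charZeroE p
  have hsim : AdSimple V := adSimple_of_strIrr hV ((strIrr_iff _).mp hirr)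
  set L := infinitesimal p V T with hLdef
  have hL : LieData V T L := lieData_inf p hV hT hirr
  obtain ⟨D, hD⟩ := exists_sec hss hsim hL
  -- an idempotent
  have hP : ∃ P ∈ L, P * P = P ∧ P.1.trace = 1 := by
    by_contra hcon
    push Not at hcon
    have h0 : L ≤ ⊥ := by
      apply hgen ⊥
      · intro z _ w hw
        rw [Submodule.mem_bot] at hw
        rw [hw, mul_zero, zero_mul, sub_zero]
        exact Submodule.zero_mem _
      · intro z hz hzz ht
        exact absurd ht (hcon z hz hzz)
    obtain ⟨z, hz, hns⟩ := hL.ns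
    have := (Submodule.mem_bot E).mp (h0 hz)
    apply hns 0
    rw [this, zero_smul]
    rfl
  obtain ⟨P, hPL, hPP, hPt⟩ := hP
  obtain ⟨s, hs, hsD⟩ := exists_mult hD hPL hPP hPt
  have hhat := hat_of_mult hD s hs hsD
  have hδ := eq_of_generated hhat hL.br hgen
  have hcomm : ∀ g, (T g : Mn E n) * s 1 = s 1 * (T g : Mn E n) := by
    intro g
    have h1 := hhat.ad g 1
    rw [mul_one, map_inv, map_inv, mul_inv_val] at h1
    have h2 := congrArg (fun A => A * (T g : Mn E n)) h1
    simp only [mul_assoc] at h2
    rw [← Units.val_mul, inv_mul_cancel, Units.val_one, mul_one] at h2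
    exact h2
  have hs0 : s ≠ 0 := by
    intro h0
    have hm := hhat.mem (single 0 1 1) (by simp)
    obtain ⟨c, hc⟩ := scalar_of_adOccurs p hsim hocc _ hm (by rw [h0]; rfl)
    have := congrFun (congrFun hc 0) 1
    simp at this
  obtain ⟨U', hU', hU⟩ := exists_open_eq p hV hT hs hcomm (U := ⊤) isOpen_univ (by
    intro x _ z hz
    exact hδ z (Submodule.subset_span ⟨x, hz⟩))
  exact contained_of_eq hs0 hs hU' hU

end

end Pool.Agent.Helper37.Af
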