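import Pool.Agent.Helper37.Af.Defs
import Pool.Agent.Helper27.FM.Goursat

/-!
# Project Af (MP_6cbef8_nt): the linear algebra data
-/

set_option autoImplicit false

namespace Pool.Agent.Helper37.Af

open Pool.Agent.Helper27.FM Matrix

/-- matrices of size `n` -/
abbrev Mn (E : Type*) (n : ℕ) := Matrix (Fin n) (Fin n) E

section

variable {E : Type*} [Field E] {G : Type*} [Group G] {n : ℕ}

/-- `W` is stable under `T` -/
def Stab (T : G →* GL (Fin n) E) (W : Submodule E (Fin n → E)) : Prop :=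
  ∀ g : G, ∀ w ∈ W, (T g : Mn E n).mulVec w ∈ W

/-- a Lie algebra in `M_2 × M_n` which is normalised by `(V, T)` -/
structure LieData (V : G →* GL (Fin 2) E) (T : G →* GL (Fin n) E)
    (L : Submodule E (M2 E × Mn E n)) : Prop where
  /-- closed under brackets -/
  br : ∀ z ∈ L, ∀ w ∈ L, z * w - w * z ∈ L
  /-- normalised -/
  ad : ∀ g, ∀ z ∈ L, pair V T g * z * pair V T g⁻¹ ∈ L
  /-- stable subspaces of `T` are stable -/
  st : ∀ W : Submodule E (Fin n → E), Stab T W → ∀ z ∈ L, ∀ w ∈ W, z.2.mulVec w ∈ W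
  /-- the first component is not scalar -/
  ns : ∃ z ∈ L, ∀ c : E, z.1 ≠ c • (1 : M2 E)

/-- the orthogonal (for the trace form of the second component) of the elements with scalar first
component -/
def Kp (L : Submodule E (M2 E × Mn E n)) : Submodule E (M2 E × Mn E n) where
  carrier := {z | z ∈ L ∧ ∀ w ∈ L, (∃ c : E, w.1 = c • (1 : M2 E)) → (z.2 * w.2).trace = 0}
  zero_mem' := ⟨L.zero_mem, fun w _ _ => by simp⟩
  add_mem' := by
    rintro a b ⟨h1, h2⟩ ⟨h3, h4⟩
    refine ⟨L.add_mem h1 h3, fun w hw hc => ?_⟩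
    rw [Prod.snd_add, add_mul, Matrix.trace_add, h2 w hw hc, h4 w hw hc, add_zero]
  smul_mem' := by
    rintro c a ⟨h1, h2⟩
    refine ⟨L.smul_mem c h1, fun w hw hc => ?_⟩
    rw [Prod.smul_snd, smul_mul_assoc, Matrix.trace_smul, h2 w hw hc, smul_zero]

/-- an ideal of `L`, normalised by `(V, T)`, which projects isomorphically to `sl_2` -/
structure Sec (V : G →* GL (Fin 2) E) (T : G →* GL (Fin n) E)
    (L D : Submodule E (M2 E × Mn E n)) : Prop where
  /-- it is in `L` -/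
  le : D ≤ L
  /-- it is an ideal -/
  br : ∀ z ∈ L, ∀ w ∈ D, z * w - w * z ∈ D
  /-- normalised -/
  ad : ∀ g, ∀ z ∈ D, pair V T g * z * pair V T g⁻¹ ∈ D
  /-- traceless -/
  tr : ∀ z ∈ D, z.1.trace = 0
  /-- onto -/
  surj : ∀ x : M2 E, x.trace = 0 → ∃ z ∈ D, z.1 = x
  /-- injective -/
  inj : ∀ z ∈ D, z.1 = 0 → z = 0

/-- a homomorphism from `M_2` to `M_n` (not unital) which lifts `sl_2` into `L` -/
structure Hat (V : G →* GL (Fin 2) E) (T : G →* GL (Fin n) E)
    (L : Submodule E (M2 E × Mn E n)) (s : M2 E →ₗ[E] Mn E n) : Prop where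
  /-- multiplicative -/
  mul : ∀ x y, s (x * y) = s x * s y
  /-- in `L` -/
  mem : ∀ x : M2 E, x.trace = 0 → (x, s x) ∈ L
  /-- equivariant under `L` -/
  br : ∀ z ∈ L, ∀ x, z.2 * s x - s x * z.2 = s (z.1 * x - x * z.1)
  /-- equivariant under the group -/
  ad : ∀ g x, (T g : Mn E n) * s x * (T g⁻¹ : GL (Fin n) E) =
    s ((V g : M2 E) * x * (V g⁻¹ : GL (Fin 2) E))

end

end Pool.Agent.Helper37.Af
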