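import Mathlib
import Pool.Agent.Helper37.Af.Data

/-!
# Project Af (MP_6cbef8_nt), module Cartan: zero trace form

PLAN. Mathlib's `LieModule.isNilpotent_derivedSeries_of_traceForm_eq_zero` (file Mathlib/Algebra/Lie/CartanCriterion.lean): if
the trace form of the Lie module `M` over the Lie algebra `L` is zero then `M` is a nilpotent module over `derivedSeries E L 1`.
Take `L` = the Lie subalgebra of `Module.End E (Fin n → E)` given by the image of `R` under `Matrix.toLin'` (an algebra
isomorphism `Matrix.toLinAlgEquiv'`), `M = Fin n → E`; `traceForm a b = trace (a ∘ b)` which is the matrix trace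
(`Matrix.trace_toLin'_eq` or `LinearMap.trace_eq_matrix_trace`, `Matrix.toLin'_mul`). By `LieModule.isNilpotent_iff_forall'`
every element of `derivedSeries E L 1` is nilpotent, and the brackets `a * b - b * a` of elements of `L`, and so their span, are in
`derivedSeries E L 1` (`LieAlgebra.derivedSeries_def`, `LieSubmodule.lie_mem_lie`).
-/

set_option autoImplicit false

namespace Pool.Agent.Helper37.Af

open Pool.Agent.Helper27.FM Matrix

attribute [local instance 100] LieRing.ofAssociativeRing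

variable {E : Type*} [Field E] [CharZero E] {n : ℕ}

theorem nilpotent_of_trace (R : Submodule E (Mn E n)) (hbr : ∀ a ∈ R, ∀ b ∈ R, a * b - b * a ∈ R)
    (htr : ∀ a ∈ R, ∀ b ∈ R, (a * b).trace = 0) :
    ∀ c ∈ Submodule.span E {c : Mn E n | ∃ a ∈ R, ∃ b ∈ R, c = a * b - b * a}, IsNilpotent c := by
  classical
  let f : Mn E n ≃ₐ[E] Module.End E (Fin n → E) := Matrix.toLinAlgEquiv'
  let L : LieSubalgebra E (Module.End E (Fin n → E)) :=
    { R.map (f : Mn E n →ₗ[E] Module.End E (Fin n → E)) with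
      lie_mem' := by
        rintro _ _ ⟨a, ha, rfl⟩ ⟨b, hb, rfl⟩
        refine ⟨a * b - b * a, hbr a ha b hb, ?_⟩
        rw [Ring.lie_def]
        change f (a * b - b * a) = f a * f b - f b * f a
        rw [map_sub, map_mul, map_mul] }
  have hLm : ∀ a, a ∈ R → f a ∈ L := fun a ha => ⟨a, ha, rfl⟩
  have h0 : LieModule.traceForm E L (Fin n → E) = 0 := by
    apply LinearMap.ext
    rintro ⟨_, a, ha, rfl⟩
    apply LinearMap.ext
    rintro ⟨_, b, hb, rfl⟩
    rw [LieModule.traceForm_apply_apply]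
    change LinearMap.trace E (Fin n → E) (f a * f b) = 0
    rw [← map_mul]
    change LinearMap.trace E (Fin n → E) (Matrix.toLin' (a * b)) = 0
    rw [Matrix.trace_toLin'_eq]
    exact htr a ha b hb
  have h1 := LieModule.isNilpotent_derivedSeries_of_traceForm_eq_zero h0
  rw [LieModule.isNilpotent_iff_forall' (R := E)] at h1
  have key : ∀ c ∈ Submodule.span E {c : Mn E n | ∃ a ∈ R, ∃ b ∈ R, c = a * b - b * a},
      ∃ x : L, x ∈ LieAlgebra.derivedSeries E L 1 ∧ (x : Module.End E (Fin n → E)) = f c := by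
    intro c hc
    refine Submodule.span_induction ?_ ?_ ?_ ?_ hc
    · rintro _ ⟨a, ha, b, hb, rfl⟩
      refine ⟨⁅(⟨f a, hLm a ha⟩ : L), (⟨f b, hLm b hb⟩ : L)⁆, ?_, ?_⟩
      · rw [LieAlgebra.derivedSeries_def, LieAlgebra.derivedSeriesOfIdeal_succ,
          LieAlgebra.derivedSeriesOfIdeal_zero]
        exact LieSubmodule.lie_mem_lie (LieSubmodule.mem_top _) (LieSubmodule.mem_top _)
      · rw [LieSubalgebra.coe_bracket, Ring.lie_def, map_sub, map_mul, map_mul]
    · exact ⟨0, zero_mem _, by rw [map_zero]; rfl⟩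
    · rintro x y _ _ ⟨u, hu, hu'⟩ ⟨v, hv, hv'⟩
      exact ⟨u + v, add_mem hu hv, by rw [map_add, ← hu', ← hv']; rfl⟩
    · rintro r x _ ⟨u, hu, hu'⟩
      exact ⟨r • u, Submodule.smul_mem _ r hu, by rw [map_smul, ← hu']; rfl⟩
  intro c hc
  obtain ⟨x, hx, hxc⟩ := key c hc
  have h2 := h1 ⟨x, hx⟩
  have h3 : LieModule.toEnd E (LieAlgebra.derivedSeries E L 1) (Fin n → E) ⟨x, hx⟩ = f c := by
    rw [← hxc]
    rfl
  rw [h3] at h2
  obtain ⟨k, hk⟩ := h2
  refine ⟨k, ?_⟩
  apply f.injective
  rw [map_pow, hk, map_zero]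

end Pool.Agent.Helper37.Af
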