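import Pool.Agent.Helper37.Af.Data

/-!
# Project Af (MP_6cbef8_nt), module DerNil: derivations of commutative algebras of matrices

PLAN. `y = z * r - r * z` is in `R`, so commutes with `r`; `y₂ = z * y - y * z ∈ R` commutes with `r` and `y`. Let `q` be the minimal
polynomial of `r` (or its characteristic polynomial: `Matrix.aeval_self_charpoly`), monic of degree `d`. For every polynomial
`g`: `z * g(r) - g(r) * z = g'(r) * y` (induction on `g`; `g' = Polynomial.derivative g`). Claim: for every `k` there is `m` with
`q^(k)(r) * y ^ m = 0` (`q^(k) = Polynomial.derivative^[k] q`). `k = 0`: `m = 0`. Step: apply `[z, ·]` to `q^(k)(r) * y ^ m = 0`: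
`q^(k+1)(r) * y * y ^ m + q^(k)(r) * (m • y₂ * y ^ (m - 1)) = 0` (everything commutes except `z`); multiply by `y`: the second
summand becomes `m • y₂ * (q^(k)(r) * y ^ m) = 0`, so `q^(k+1)(r) * y ^ (m + 2) = 0`. For `k = d`: `q^(d) = d!` (constant, nonzero:
`CharZero`), so `y ^ m = 0`.
-/

set_option autoImplicit false

namespace Pool.Agent.Helper37.Af

open Pool.Agent.Helper27.FM Matrix

section

variable {E : Type*} [Field E] {n : ℕ}

/-- the derivation on polynomials in `r` -/
private theorem dernil_poly {z r y : Mn E n} (hy : z * r - r * z = y) (hc : r * y = y * r)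
    (g : Polynomial E) :
    z * Polynomial.aeval r g - Polynomial.aeval r g * z =
      Polynomial.aeval r (Polynomial.derivative g) * y := by
  induction g using Polynomial.induction_on' with
  | add p q hp hq =>
    rw [map_add, map_add, map_add, add_mul _ _ y, ← hp, ← hq]
    noncomm_ring
  | monomial k a =>
    induction k generalizing a with
    | zero =>
      rw [Polynomial.monomial_zero_left, Polynomial.derivative_C, map_zero, zero_mul,
        Polynomial.aeval_C, ← Algebra.commutes, sub_self]
    | succ k ih =>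
      have e : Polynomial.monomial (k + 1) a = Polynomial.monomial k a * Polynomial.X := by
        rw [Polynomial.monomial_mul_X]
      have h1 := ih a
      rw [e, Polynomial.derivative_mul, Polynomial.derivative_X, mul_one, map_mul, map_add, map_mul,
        Polynomial.aeval_X, add_mul,
        mul_assoc (Polynomial.aeval r (Polynomial.derivative (Polynomial.monomial k a))) r y, hc,
        ← mul_assoc (Polynomial.aeval r (Polynomial.derivative (Polynomial.monomial k a))) y r,
        ← h1, ← hy]
      noncomm_ring

/-- powers -/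
private theorem dernil_pow {z y y₂ : Mn E n} (hy : z * y - y * z = y₂) (hc : y * y₂ = y₂ * y)
    (m : ℕ) : z * y ^ (m + 1) - y ^ (m + 1) * z = ((m : E) + 1) • (y₂ * y ^ m) := by
  induction m with
  | zero => rw [pow_one, pow_zero, mul_one, hy, Nat.cast_zero, zero_add, one_smul]
  | succ m ih =>
    have e : z * y ^ (m + 1 + 1) - y ^ (m + 1 + 1) * z =
        (z * y ^ (m + 1) - y ^ (m + 1) * z) * y + y ^ (m + 1) * (z * y - y * z) := by
      rw [pow_succ y (m + 1)]
      noncomm_ring
    have hcp : y ^ (m + 1) * y₂ = y₂ * y ^ (m + 1) :=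
      (Commute.pow_left (show Commute y y₂ from hc) (m + 1)).eq
    rw [e, ih, hy, hcp, smul_mul_assoc, mul_assoc, ← pow_succ]
    push_cast
    rw [add_smul ((m : E) + 1), one_smul]

end

variable {E : Type*} [Field E] [CharZero E] {n : ℕ}

theorem bracket_nilpotent (R : Submodule E (Mn E n)) (hcomm : ∀ a ∈ R, ∀ b ∈ R, a * b = b * a)
    (z : Mn E n) (hz : ∀ a ∈ R, z * a - a * z ∈ R) (r : Mn E n) (hr : r ∈ R) :
    IsNilpotent (z * r - r * z) := by
  obtain ⟨y, hy⟩ : ∃ y, z * r - r * z = y := ⟨_, rfl⟩
  obtain ⟨y₂, hy₂⟩ : ∃ y₂, z * y - y * z = y₂ := ⟨_, rfl⟩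
  have hyR : y ∈ R := hy ▸ hz r hr
  have hy₂R : y₂ ∈ R := hy₂ ▸ hz y hyR
  have hry : r * y = y * r := hcomm r hr y hyR
  have hyy : y * y₂ = y₂ * y := hcomm y hyR y₂ hy₂R
  have hry₂ : r * y₂ = y₂ * r := hcomm r hr y₂ hy₂R
  rw [hy]
  have hcg : ∀ (g : Polynomial E) (w : Mn E n), r * w = w * r →
      Polynomial.aeval r g * w = w * Polynomial.aeval r g := by
    intro g w hw
    induction g using Polynomial.induction_on' with
    | add p q hp hq => rw [map_add, add_mul, mul_add, hp, hq]
    | monomial k a =>
      rw [Polynomial.aeval_monomial, mul_assoc,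
        (Commute.pow_left (show Commute r w from hw) k).eq, ← mul_assoc, ← mul_assoc,
        Algebra.commutes]
  have key : ∀ k : ℕ, ∃ m : ℕ,
      Polynomial.aeval r (Polynomial.derivative^[k] r.charpoly) * y ^ m = 0 := by
    intro k
    induction k with
    | zero => exact ⟨0, by rw [Function.iterate_zero, id, Matrix.aeval_self_charpoly, zero_mul]⟩
    | succ k ih =>
      obtain ⟨m, hm⟩ := ih
      refine ⟨m + 1 + 1, ?_⟩
      rw [Function.iterate_succ_apply']
      obtain ⟨g, hg⟩ : ∃ g, Polynomial.derivative^[k] r.charpoly = g := ⟨_, rfl⟩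
      rw [hg] at hm ⊢
      have hm' : Polynomial.aeval r g * y ^ (m + 1) = 0 := by
        rw [pow_succ, ← mul_assoc, hm, zero_mul]
      have h1 := dernil_poly hy hry g
      have h2 := dernil_pow hy₂ hyy m
      have e : Polynomial.aeval r (Polynomial.derivative g) * y * y ^ (m + 1) =
          z * (Polynomial.aeval r g * y ^ (m + 1)) - (Polynomial.aeval r g * y ^ (m + 1)) * z -
            Polynomial.aeval r g * (z * y ^ (m + 1) - y ^ (m + 1) * z) := by
        rw [← h1]
        noncomm_ring
      rw [pow_succ' y (m + 1), ← mul_assoc, e, hm', h2, mul_zero, zero_mul, sub_self, zero_sub,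
        mul_smul_comm, ← mul_assoc, hcg g y₂ hry₂, mul_assoc, hm, mul_zero, smul_zero, neg_zero]
  obtain ⟨m, hm⟩ := key r.charpoly.natDegree
  refine ⟨m, ?_⟩
  have hmon := Matrix.charpoly_monic r
  have hd : Polynomial.derivative^[r.charpoly.natDegree] r.charpoly =
      Polynomial.C (Nat.factorial r.charpoly.natDegree : E) := by
    have h1 : (Polynomial.derivative^[r.charpoly.natDegree] r.charpoly).natDegree ≤ 0 := by
      have := Polynomial.natDegree_iterate_derivative r.charpoly r.charpoly.natDegree
      rwa [Nat.sub_self] at this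
    rw [Polynomial.eq_C_of_natDegree_le_zero h1, Polynomial.coeff_iterate_derivative, zero_add,
      Nat.descFactorial_self, hmon.coeff_natDegree, nsmul_eq_mul, mul_one]
  rw [hd, Polynomial.aeval_C, Algebra.algebraMap_eq_smul_one, smul_mul_assoc, one_mul] at hm
  exact (smul_eq_zero.mp hm).resolve_left (Nat.cast_ne_zero.mpr (Nat.factorial_ne_zero _))

end Pool.Agent.Helper37.Af
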