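import Pool.Agent.Helper37.Af.Engel
import Pool.Agent.Helper37.Af.Cartan
import Pool.Agent.Helper37.Af.DerNil

/-!
# Project Af (MP_6cbef8_nt), module Central: ideals with zero trace form are central

PLAN. (1) `J₁ =` span of the brackets of `R`: by `nilpotent_of_trace` all elements are nilpotent; `J₁ ≤ R` (so `J₁` is closed
under brackets: the bracket of two elements of `J₁ ≤ R` is one of the generators), normalised by `T` (conjugation maps generators
to generators: `T g (a b - b a) T g⁻¹ = a' b' - b' a'`, `Submodule.span_induction`), and preserves stable subspaces (as `R ≤ L`). By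
`nil_eq_bot` `J₁ = 0`: `R` is commutative. (2) `J₂ =` span of `z * r - r * z`, `z ∈ L`, `r ∈ R`: contained in `R` (ideal), so
commutative and closed under brackets (brackets are `0`); generators are nilpotent by `bracket_nilpotent`, and sums and
multiples of commuting nilpotents are nilpotent (`Commute.isNilpotent_add`, `IsNilpotent.smul`); normalised by `T` as `L` and `R` are.
By `nil_eq_bot` `J₂ = 0`.
-/

set_option autoImplicit false

namespace Pool.Agent.Helper37.Af

open Pool.Agent.Helper27.FM Matrix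

section

variable {E : Type*} [Field E] {n : ℕ}

/-- conjugation of a bracket -/
private theorem central_conj {a b t t' : Mn E n} (h : t' * t = 1) :
    t * (a * b - b * a) * t' = (t * a * t') * (t * b * t') - (t * b * t') * (t * a * t') := by
  have e1 : (t * a * t') * (t * b * t') = t * a * (t' * t) * b * t' := by noncomm_ring
  have e2 : (t * b * t') * (t * a * t') = t * b * (t' * t) * a * t' := by noncomm_ring
  rw [e1, e2, h]
  noncomm_ring

end

variable {E : Type*} [Field E] [CharZero E] {G : Type*} [Group G] {n : ℕ}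

theorem central_of_trace {T : G →* GL (Fin n) E} (hss : Semisimple T) (L : Submodule E (Mn E n))
    (hLG : ∀ g : G, ∀ a ∈ L, (T g : Mn E n) * a * (T g⁻¹ : GL (Fin n) E) ∈ L)
    (hst : ∀ W : Submodule E (Fin n → E), Stab T W → ∀ a ∈ L, ∀ w ∈ W, a.mulVec w ∈ W)
    (R : Submodule E (Mn E n)) (hRL : R ≤ L) (hid : ∀ z ∈ L, ∀ r ∈ R, z * r - r * z ∈ R)
    (hRG : ∀ g : G, ∀ a ∈ R, (T g : Mn E n) * a * (T g⁻¹ : GL (Fin n) E) ∈ R)
    (htr : ∀ a ∈ R, ∀ b ∈ R, (a * b).trace = 0) :
    ∀ z ∈ L, ∀ r ∈ R, z * r = r * z := by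
  have hinv : ∀ g : G, ((T g⁻¹ : GL (Fin n) E) : Mn E n) * (T g : Mn E n) = 1 := by
    intro g
    rw [← Units.val_mul, ← map_mul, inv_mul_cancel, map_one, Units.val_one]
  -- conjugating spans
  have hconj : ∀ (A B : Submodule E (Mn E n)),
      (∀ g : G, ∀ a ∈ A, (T g : Mn E n) * a * (T g⁻¹ : GL (Fin n) E) ∈ A) →
      (∀ g : G, ∀ a ∈ B, (T g : Mn E n) * a * (T g⁻¹ : GL (Fin n) E) ∈ B) →
      ∀ g : G, ∀ c ∈ Submodule.span E {c : Mn E n | ∃ a ∈ A, ∃ b ∈ B, c = a * b - b * a},
        (T g : Mn E n) * c * (T g⁻¹ : GL (Fin n) E) ∈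
          Submodule.span E {c : Mn E n | ∃ a ∈ A, ∃ b ∈ B, c = a * b - b * a} := by
    intro A B hA hB g c hc
    induction hc using Submodule.span_induction with
    | mem c hc =>
      obtain ⟨a, ha, b, hb, rfl⟩ := hc
      rw [central_conj (hinv g)]
      exact Submodule.subset_span ⟨_, hA g a ha, _, hB g b hb, rfl⟩
    | zero => rw [mul_zero, zero_mul]; exact Submodule.zero_mem _
    | add a b _ _ ha hb => rw [mul_add, add_mul]; exact Submodule.add_mem _ ha hb
    | smul t a _ ha => rw [mul_smul_comm, smul_mul_assoc]; exact Submodule.smul_mem _ _ ha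
  have hR : ∀ a ∈ R, ∀ b ∈ R, a * b - b * a ∈ R := fun a ha b hb => hid a (hRL ha) b hb
  -- `R` is commutative
  set J₁ := Submodule.span E {c : Mn E n | ∃ a ∈ R, ∃ b ∈ R, c = a * b - b * a} with hJ₁
  have hJ₁R : J₁ ≤ R := by
    rw [hJ₁, Submodule.span_le]
    rintro _ ⟨a, ha, b, hb, rfl⟩
    exact hR a ha b hb
  have h1 := nil_eq_bot hss J₁
    (fun a ha b hb => Submodule.subset_span ⟨a, hJ₁R ha, b, hJ₁R hb, rfl⟩)
    (nilpotent_of_trace R hR htr) (hconj R R hRG hRG)
    (fun W hW a ha w hw => hst W hW a (hRL (hJ₁R ha)) w hw)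
  have hcomm : ∀ a ∈ R, ∀ b ∈ R, a * b = b * a := by
    intro a ha b hb
    exact sub_eq_zero.mp (h1 _ (Submodule.subset_span ⟨a, ha, b, hb, rfl⟩))
  -- `R` is central
  set J₂ := Submodule.span E {c : Mn E n | ∃ a ∈ L, ∃ b ∈ R, c = a * b - b * a} with hJ₂
  have hJ₂R : J₂ ≤ R := by
    rw [hJ₂, Submodule.span_le]
    rintro _ ⟨a, ha, b, hb, rfl⟩
    exact hid a ha b hb
  have hnil : ∀ c ∈ J₂, IsNilpotent c := by
    intro c hc
    have : c ∈ R ∧ IsNilpotent c := by
      rw [hJ₂] at hc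
      induction hc using Submodule.span_induction with
      | mem c hc =>
        obtain ⟨a, ha, b, hb, rfl⟩ := hc
        exact ⟨hid a ha b hb, bracket_nilpotent R hcomm a (fun r hr => hid a ha r hr) b hb⟩
      | zero => exact ⟨R.zero_mem, IsNilpotent.zero⟩
      | add a b _ _ ha hb =>
        exact ⟨R.add_mem ha.1 hb.1, Commute.isNilpotent_add (hcomm a ha.1 b hb.1) ha.2 hb.2⟩
      | smul t a _ ha => exact ⟨R.smul_mem t ha.1, ha.2.smul t⟩
    exact this.2
  have h2 := nil_eq_bot hss J₂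
    (fun a ha b hb => by
      rw [hcomm a (hJ₂R ha) b (hJ₂R hb), sub_self]
      exact J₂.zero_mem)
    hnil (hconj L R hLG hRG)
    (fun W hW a ha w hw => hst W hW a (hRL (hJ₂R ha)) w hw)
  intro z hz r hr
  exact sub_eq_zero.mp (h2 _ (Submodule.subset_span ⟨z, hz, r, hr, rfl⟩))

end Pool.Agent.Helper37.Af
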