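import Pool.Agent.Helper37.Af.Data

/-!
# Project Af (MP_6cbef8_nt), module Engel: nilpotent Lie algebras of matrices are zero on semisimple modules

PLAN. (1) `engel_mat`: use Mathlib's Engel theorem. Let `J'` be the Lie subalgebra of `Module.End E (Fin n → E)` with
carrier the image of `J` under `Matrix.toLin'` (or `Matrix.mulVecLin`); `W` is a `LieSubmodule E J' (Fin n → E)`; by
`LieModule.isNilpotent_iff_forall'` (each `toEnd` on `W` is nilpotent, being the restriction of a nilpotent) `W` is a nilpotent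
`J'`-module, and `LieModule.nontrivial_max_triv_of_isNilpotent` gives a nonzero vector of `W` killed by `J'`.
(Alternative: elementary induction on the dimension of `J`.)
(2) `nil_eq_bot`: `W₀ = {v | ∀ a ∈ J, a v = 0}` is stable under `T` (`a (T g v) = T g ((T g)⁻¹ a T g) v`; use `hG` for `g⁻¹`); let
`W'` be a stable complement (`hss`); if `W' ≠ ⊥` then by `engel_mat` (J preserves `W'` by `hst`) there is `0 ≠ w ∈ W'` with `J w = 0`,
so `w ∈ W₀ ∩ W'`, a contradiction. So `W' = ⊥`, `W₀ = ⊤` and every `a ∈ J` is zero.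
-/

set_option autoImplicit false

namespace Pool.Agent.Helper37.Af

open Pool.Agent.Helper27.FM Matrix

variable {E : Type*} [Field E] {G : Type*} [Group G] {n : ℕ}

attribute [local instance 100] LieRing.ofAssociativeRing

/-- the Lie algebra of endomorphisms given by `J` -/
private noncomputable def engelLie (J : Submodule E (Mn E n))
    (hbr : ∀ a ∈ J, ∀ b ∈ J, a * b - b * a ∈ J) :
    LieSubalgebra E (Module.End E (Fin n → E)) :=
  { J.map (Matrix.toLin' : Mn E n ≃ₗ[E] ((Fin n → E) →ₗ[E] (Fin n → E))).toLinearMap with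
    lie_mem' := by
      rintro x y ⟨a, ha, rfl⟩ ⟨b, hb, rfl⟩
      refine ⟨a * b - b * a, hbr a ha b hb, ?_⟩
      rw [Ring.lie_def]
      simp only [LinearEquiv.coe_coe, map_sub, Matrix.toLin'_mul]
      rfl }

private theorem mem_engelLie (J : Submodule E (Mn E n))
    (hbr : ∀ a ∈ J, ∀ b ∈ J, a * b - b * a ∈ J) (x : Module.End E (Fin n → E)) :
    x ∈ engelLie J hbr ↔ ∃ a ∈ J, Matrix.toLin' a = x := by
  rfl

theorem engel_mat (J : Submodule E (Mn E n)) (hbr : ∀ a ∈ J, ∀ b ∈ J, a * b - b * a ∈ J)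
    (hnil : ∀ a ∈ J, IsNilpotent a) (W : Submodule E (Fin n → E)) (hW : W ≠ ⊥)
    (hst : ∀ a ∈ J, ∀ w ∈ W, a.mulVec w ∈ W) :
    ∃ w ∈ W, w ≠ 0 ∧ ∀ a ∈ J, a.mulVec w = 0 := by
  classical
  let L := engelLie J hbr
  let W' : LieSubmodule E L (Fin n → E) :=
    { W with
      lie_mem := by
        rintro ⟨x, hx⟩ w hw
        obtain ⟨a, ha, rfl⟩ := (mem_engelLie J hbr x).1 hx
        exact hst a ha w hw }
  have hmem : ∀ w : Fin n → E, w ∈ W' ↔ w ∈ W := fun w => Iff.rfl
  haveI : Nontrivial W' := by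
    obtain ⟨w, hw, h0⟩ := (Submodule.ne_bot_iff W).1 hW
    exact ⟨⟨⟨w, hw⟩, 0, fun h => h0 (congrArg Subtype.val h)⟩⟩
  haveI hn : LieModule.IsNilpotent L W' := by
    rw [LieModule.isNilpotent_iff_forall' (R := E)]
    rintro ⟨x, hx⟩
    obtain ⟨a, ha, rfl⟩ := (mem_engelLie J hbr x).1 hx
    obtain ⟨k, hk⟩ := hnil a ha
    refine ⟨k, ?_⟩
    have key : ∀ (m : ℕ) (w : W'),
        ((((LieModule.toEnd E L W' ⟨Matrix.toLin' a, hx⟩) ^ m) w : W') : Fin n → E) =
          (a ^ m).mulVec (w : Fin n → E) := by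
      intro m
      induction m with
      | zero => intro w; simp
      | succ m ih =>
        intro w
        rw [pow_succ', Module.End.mul_apply, pow_succ', ← Matrix.mulVec_mulVec, ← ih w]
        rfl
    ext1 w
    apply Subtype.ext
    rw [key, hk]
    simp
  haveI := LieModule.nontrivial_max_triv_of_isNilpotent E L W'
  obtain ⟨⟨w, hw⟩, hne⟩ := exists_ne (0 : LieModule.maxTrivSubmodule E L W')
  rw [LieModule.mem_maxTrivSubmodule] at hw
  refine ⟨(w : Fin n → E), w.2, fun h => hne ?_, fun a ha => ?_⟩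
  · apply Subtype.ext
    apply Subtype.ext
    exact h
  · have h1 := hw ⟨Matrix.toLin' a, (mem_engelLie J hbr _).2 ⟨a, ha, rfl⟩⟩
    exact congrArg Subtype.val h1

theorem nil_eq_bot {T : G →* GL (Fin n) E} (hss : Semisimple T) (J : Submodule E (Mn E n))
    (hbr : ∀ a ∈ J, ∀ b ∈ J, a * b - b * a ∈ J) (hnil : ∀ a ∈ J, IsNilpotent a)
    (hG : ∀ g : G, ∀ a ∈ J, (T g : Mn E n) * a * (T g⁻¹ : GL (Fin n) E) ∈ J)
    (hst : ∀ W : Submodule E (Fin n → E), Stab T W → ∀ a ∈ J, ∀ w ∈ W, a.mulVec w ∈ W) :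
    ∀ a ∈ J, a = 0 := by
  let W₀ : Submodule E (Fin n → E) :=
    { carrier := {v | ∀ a ∈ J, a.mulVec v = 0}
      zero_mem' := fun a _ => Matrix.mulVec_zero a
      add_mem' := fun {v w} hv hw a ha => by rw [Matrix.mulVec_add, hv a ha, hw a ha, add_zero]
      smul_mem' := fun c v hv a ha => by rw [Matrix.mulVec_smul, hv a ha, smul_zero] }
  have hW₀ : Stab T W₀ := by
    intro g v hv a ha
    have h1 := hG g⁻¹ a ha
    rw [inv_inv] at h1
    have h2 := hv _ h1
    have h3 : (T g : Mn E n) * ((T g⁻¹ : GL (Fin n) E) : Mn E n) = 1 := by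
      rw [← Units.val_mul, ← map_mul, mul_inv_cancel, map_one, Units.val_one]
    have h4 : (T g : Mn E n) * (((T g⁻¹ : GL (Fin n) E) : Mn E n) * a * (T g : Mn E n)) =
        a * (T g : Mn E n) := by
      rw [← mul_assoc, ← mul_assoc, h3, one_mul]
    rw [Matrix.mulVec_mulVec, ← h4, ← Matrix.mulVec_mulVec, h2, Matrix.mulVec_zero]
  obtain ⟨W', hW', hc⟩ := hss W₀ hW₀
  have hbot : W' = ⊥ := by
    by_contra hne
    obtain ⟨w, hw, hw0, hk⟩ := engel_mat J hbr hnil W' hne (hst W' hW')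
    have h5 : w ∈ W₀ ⊓ W' := ⟨hk, hw⟩
    rw [hc.inf_eq_bot] at h5
    exact hw0 ((Submodule.mem_bot E).1 h5)
  have htop : W₀ = ⊤ := by
    have h6 := hc.sup_eq_top
    rwa [hbot, sup_bot_eq] at h6
  intro a ha
  apply Matrix.toLin'.injective
  rw [map_zero]
  refine LinearMap.ext fun v => ?_
  have hv : v ∈ W₀ := htop ▸ Submodule.mem_top
  rw [Matrix.toLin'_apply, hv a ha]
  rfl

end Pool.Agent.Helper37.Af
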