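import Pool.Agent.Helper37.Af.Data

/-!
# Project Af (MP_6cbef8_nt), module KpIdeal: the orthogonal `Kp L` is an ideal

PLAN. `Kp_br`: for `z ∈ L`, `w ∈ Kp L`, `u ∈ L` with `u.1` scalar: `trace ([z.2, w.2] u.2) = - trace (w.2 [z.2, u.2])` (`Matrix.trace_mul_comm`,
`Matrix.trace_mul_cycle`), and `[z, u] = z * u - u * z ∈ L` has first component `[z.1, c] = 0`, scalar. `Kp_ad`:
`trace (T g a T g⁻¹ b) = trace (a T g⁻¹ b T g)`, and `pair g⁻¹ * u * pair g` is in `L` with the same scalar first component.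
-/

set_option autoImplicit false

namespace Pool.Agent.Helper37.Af

open Pool.Agent.Helper27.FM Matrix

variable {E : Type*} [Field E] {G : Type*} [Group G] {n : ℕ} {V : G →* GL (Fin 2) E}
  {T : G →* GL (Fin n) E} {L : Submodule E (M2 E × Mn E n)}

theorem Kp_le : Kp L ≤ L := fun _ hz => hz.1

theorem Kp_br (hL : LieData V T L) : ∀ z ∈ L, ∀ w ∈ Kp L, z * w - w * z ∈ Kp L := by
  rintro z hz w ⟨hw, hw2⟩
  refine ⟨hL.br z hz w hw, ?_⟩
  rintro u hu ⟨c, hc⟩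
  have h1 : (z * u - u * z).1 = (0 : E) • (1 : M2 E) := by
    rw [Prod.fst_sub, Prod.fst_mul, Prod.fst_mul, hc, mul_smul_comm, smul_mul_assoc, mul_one,
      one_mul, sub_self, zero_smul]
  have h2 := hw2 _ (hL.br z hz u hu) ⟨0, h1⟩
  rw [Prod.snd_sub, Prod.snd_mul, Prod.snd_mul] at h2 ⊢
  rw [mul_sub, Matrix.trace_sub, ← mul_assoc, ← mul_assoc] at h2
  rw [sub_mul, Matrix.trace_sub]
  have h3 : (z.2 * w.2 * u.2).trace = (w.2 * u.2 * z.2).trace := by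
    rw [mul_assoc, Matrix.trace_mul_comm]
  rw [h3]
  linear_combination -h2

theorem Kp_ad (hL : LieData V T L) : ∀ g, ∀ z ∈ Kp L, pair V T g * z * pair V T g⁻¹ ∈ Kp L := by
  rintro g z ⟨hz, hz2⟩
  refine ⟨hL.ad g z hz, ?_⟩
  rintro u hu ⟨c, hc⟩
  have h0 := hL.ad g⁻¹ u hu
  rw [inv_inv] at h0
  have hinv : pair V T g⁻¹ * pair V T g = 1 := by rw [← map_mul, inv_mul_cancel, map_one]
  have h1 : (pair V T g⁻¹ * u * pair V T g).1 = c • (1 : M2 E) := by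
    rw [Prod.fst_mul, Prod.fst_mul, hc, mul_smul_comm, smul_mul_assoc, mul_one]
    congr 1
    exact congrArg Prod.fst hinv
  have h2 := hz2 _ h0 ⟨c, h1⟩
  rw [Prod.snd_mul, Prod.snd_mul] at h2 ⊢
  rw [← h2, mul_assoc, mul_assoc, Matrix.trace_mul_comm]
  congr 1
  noncomm_ring

end Pool.Agent.Helper37.Af
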