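import Pool.Agent.Helper37.Af.Central
import Pool.Agent.Helper37.Af.KpIdeal

/-!
# Project Af (MP_6cbef8_nt), module KpCent: `Kp L` meets the elements with scalar first component in the centre

PLAN. Apply `central_of_trace` to `L' = L.map (LinearMap.snd E _ _)` and `R = C.map (LinearMap.snd E _ _)`, where `C` is the submodule of all
`w ∈ Kp L` whose first component is scalar (an ideal of `L`, normalised by the group: `Kp_br`, `Kp_ad`, brackets with scalars
vanish, conjugates of scalars are scalar; `pair V T g⁻¹` has components `V g⁻¹`, `T g⁻¹`). The trace form vanishes on `R` by the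
definition of `Kp L`. So `z.2` and `w.2` commute; the first components commute as `w.1` is scalar.
-/

set_option autoImplicit false

namespace Pool.Agent.Helper37.Af

open Pool.Agent.Helper27.FM Matrix

variable {E : Type*} [Field E] [CharZero E] {G : Type*} [Group G] {n : ℕ} {V : G →* GL (Fin 2) E}
  {T : G →* GL (Fin n) E} {L : Submodule E (M2 E × Mn E n)}

theorem Kp_central (hss : Semisimple T) (hL : LieData V T L) :
    ∀ z ∈ L, ∀ w ∈ Kp L, (∃ c : E, w.1 = c • (1 : M2 E)) → z * w = w * z := by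
  let C : Submodule E (M2 E × Mn E n) :=
    { carrier := {w | w ∈ Kp L ∧ ∃ c : E, w.1 = c • (1 : M2 E)}
      zero_mem' := ⟨(Kp L).zero_mem, 0, by simp⟩
      add_mem' := by
        rintro a b ⟨h1, c, h2⟩ ⟨h3, d, h4⟩
        exact ⟨(Kp L).add_mem h1 h3, c + d, by rw [Prod.fst_add, h2, h4, add_smul]⟩
      smul_mem' := by
        rintro t a ⟨h1, c, h2⟩
        exact ⟨(Kp L).smul_mem t h1, t * c, by rw [Prod.smul_fst, h2, smul_smul]⟩ }
  have hmain := central_of_trace hss (L.map (LinearMap.snd E _ _)) ?_ ?_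
    (C.map (LinearMap.snd E _ _)) ?_ ?_ ?_ ?_
  · rintro z hz w hw ⟨c, hc⟩
    ext1
    · rw [Prod.fst_mul, Prod.fst_mul, hc, mul_smul_comm, smul_mul_assoc, mul_one, one_mul]
    · exact hmain z.2 ⟨z, hz, rfl⟩ w.2 ⟨w, ⟨hw, c, hc⟩, rfl⟩
  · rintro g _ ⟨a, ha, rfl⟩
    exact ⟨_, hL.ad g a ha, rfl⟩
  · rintro W hW _ ⟨a, ha, rfl⟩ w hw
    exact hL.st W hW a ha w hw
  · rintro _ ⟨w, hw, rfl⟩
    exact ⟨w, Kp_le hw.1, rfl⟩
  · rintro _ ⟨z, hz, rfl⟩ _ ⟨w, ⟨hw, c, hc⟩, rfl⟩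
    refine ⟨_, ⟨Kp_br hL z hz w hw, 0, ?_⟩, rfl⟩
    rw [Prod.fst_sub, Prod.fst_mul, Prod.fst_mul, hc, mul_smul_comm, smul_mul_assoc, mul_one,
      one_mul, sub_self, zero_smul]
  · rintro g _ ⟨w, ⟨hw, c, hc⟩, rfl⟩
    refine ⟨_, ⟨Kp_ad hL g w hw, c, ?_⟩, rfl⟩
    have hinv : pair V T g * pair V T g⁻¹ = 1 := by rw [← map_mul, mul_inv_cancel, map_one]
    rw [Prod.fst_mul, Prod.fst_mul, hc, mul_smul_comm, smul_mul_assoc, mul_one]
    congr 1
    exact congrArg Prod.fst hinv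
  · rintro _ ⟨z, ⟨hz, c, hc⟩, rfl⟩ _ ⟨w, ⟨hw, d, hd⟩, rfl⟩
    exact hz.2 w (Kp_le hw) ⟨d, hd⟩

end Pool.Agent.Helper37.Af
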