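import Pool.Agent.Helper37.Af.Data

/-!
# Project Af (MP_6cbef8_nt), module Mult: from `sl_2` and an idempotent to `M_2`

PLAN. (1) `idem_relations`: elementary: multiply `p e - e p = e` by `p` on the left: `p e p = 0`; on the right: `e p = 0` (`2 e p = 0`); so
`p e = e`, `e e = e (p e) = (e p) e = 0`. Similarly `p f = 0`, `f p = f`, `f f = 0`. From `[h, e] = 2 e`, `h = e f - f e`: `e f e + e f e = 2 e` so
`e f e = e`; similarly `f e f = f`.
(2) `conj_idem`: a matrix `P` of size two with `P * P = P`, trace one, is conjugate to `single 0 0 1`: take `v ≠ 0` a column of `P` (so `P v = v`)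
and `w ≠ 0` a column of `1 - P`; `u⁻¹ = [v | w]`. (By cases: if `P 0 0 ≠ 0` take `v = (P 0 0, P 1 0)`; explicit formulas.)
(3) `exists_mult`: put `s x = y 0 0 • (e' f') + y 0 1 • e' + y 1 0 • f' + y 1 1 • (f' e')`, `y = u x u⁻¹`, `e' = (D-lift of u⁻¹ E_01 u).2`,
`f' = (D-lift of u⁻¹ E_10 u).2`. The relations of (1) for `p = P.2`: `[P, lift e] ∈ D` has first component `[P.1, e] = e`, so is `lift e` by `inj`;
similarly for `f`, and for `[h, e]`, `[h, f]`. Multiplicativity from (1). For trace zero `x`: `y 1 1 = - y 0 0`, so `(x, s x) =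
y 0 0 • [lift e, lift f] + y 0 1 • lift e + y 1 0 • lift f ∈ D`.
-/

set_option autoImplicit false

namespace Pool.Agent.Helper37.Af

open Pool.Agent.Helper27.FM Matrix

theorem idem_relations {E A : Type*} [Field E] [CharZero E] [Ring A] [Algebra E A] {p e f : A}
    (hp : p * p = p) (he : p * e - e * p = e) (hf : p * f - f * p = -f)
    (hhe : (e * f - f * e) * e - e * (e * f - f * e) = 2 * e)
    (hhf : (e * f - f * e) * f - f * (e * f - f * e) = -(2 * f)) :
    e * e = 0 ∧ f * f = 0 ∧ e * f * e = e ∧ f * e * f = f := by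
  have h2 : ∀ x : A, 2 * x = 0 → x = 0 := by
    intro x hx
    have h : (2 : E) • x = 0 := by
      rw [two_smul, ← two_mul]; exact hx
    exact (smul_eq_zero.mp h).resolve_left two_ne_zero
  -- relations for e
  have e1 : p * e * p = 0 := by
    have h := congrArg (fun t => p * t) he
    simp only [mul_sub, ← mul_assoc, hp] at h
    exact sub_eq_self.mp h
  have e2 : e * p = 0 := by
    have h := congrArg (fun t => t * p) he
    simp only [sub_mul] at h
    rw [e1, mul_assoc e p p, hp, zero_sub] at h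
    apply h2
    rw [two_mul]
    nth_rewrite 1 [← h]
    rw [neg_add_cancel]
  have e3 : p * e = e := by rw [e2, sub_zero] at he; exact he
  have ee : e * e = 0 := by
    calc e * e = e * (p * e) := by rw [e3]
      _ = (e * p) * e := (mul_assoc _ _ _).symm
      _ = 0 := by rw [e2, zero_mul]
  -- relations for f
  have f1 : p * f * p = 0 := by
    have h := congrArg (fun t => t * p) hf
    simp only [sub_mul, neg_mul] at h
    rw [mul_assoc f p p, hp] at h
    have h' := congrArg (fun t => t + f * p) h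
    simpa using h'
  have f2 : p * f = 0 := by
    have h := congrArg (fun t => p * t) hf
    simp only [mul_sub, ← mul_assoc, hp, mul_neg] at h
    rw [f1, sub_zero] at h
    apply h2
    rw [two_mul]
    nth_rewrite 1 [h]
    rw [neg_add_cancel]
  have f3 : f * p = f := by
    rw [f2, zero_sub, neg_inj] at hf
    exact hf
  have ff : f * f = 0 := by
    calc f * f = (f * p) * f := by rw [f3]
      _ = f * (p * f) := mul_assoc _ _ _
      _ = 0 := by rw [f2, mul_zero]
  refine ⟨ee, ff, ?_, ?_⟩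
  · have h : 2 * (e * f * e - e) = 0 := by
      have h1 : (e * f - f * e) * e - e * (e * f - f * e) =
          e * f * e - f * (e * e) - (e * e) * f + e * f * e := by noncomm_ring
      rw [h1, ee, mul_zero, zero_mul, sub_zero, sub_zero, ← two_mul] at hhe
      rw [mul_sub, hhe, sub_self]
    exact sub_eq_zero.mp (h2 _ h)
  · have h : 2 * (f * e * f - f) = 0 := by
      have h1 : (e * f - f * e) * f - f * (e * f - f * e) =
          e * (f * f) - f * e * f - f * e * f + (f * f) * e := by noncomm_ring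
      rw [h1, ff, mul_zero, zero_mul, zero_sub, add_zero] at hhf
      rw [mul_sub, sub_eq_zero]
      have h3 : -(2 * (f * e * f)) = -(2 * f) := by
        rw [← hhf]; noncomm_ring
      exact neg_inj.mp h3
    exact sub_eq_zero.mp (h2 _ h)

private lemma conj_of {E : Type*} [Field E] {P M : M2 E} (hM : M.det ≠ 0)
    (h : P * M = M * single 0 0 1) : ∃ u : GL (Fin 2) E, cj u P = single 0 0 1 := by
  set g := Matrix.GeneralLinearGroup.mkOfDetNeZero M hM with hg
  have hgv : (g : M2 E) = M := rfl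
  refine ⟨g⁻¹, ?_⟩
  unfold cj
  rw [inv_inv, hgv, mul_assoc, h, ← mul_assoc, ← hgv, inv_mul_val, one_mul]

theorem conj_idem {E : Type*} [Field E] [CharZero E] {P : M2 E} (hP : P * P = P)
    (ht : P.trace = 1) : ∃ u : GL (Fin 2) E, cj u P = single 0 0 1 := by
  rw [tr_def] at ht
  have h11 : P 1 1 = 1 - P 0 0 := by linear_combination ht
  have h00 := congrFun (congrFun hP 0) 0
  simp only [Matrix.mul_apply, Fin.sum_univ_two] at h00
  by_cases ha : P 0 0 = 0
  · have hbc : P 0 1 * P 1 0 = 0 := by linear_combination h00 - (P 0 0 - 1) * ha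
    refine conj_of (M := !![P 0 1, 1; 1, - P 1 0]) ?_ ?_
    · rw [Matrix.det_fin_two_of]
      have : P 0 1 * -P 1 0 - 1 * 1 = -1 := by linear_combination -hbc
      rw [this]
      exact neg_ne_zero.mpr one_ne_zero
    · apply ext2 <;> simp [Matrix.mul_apply, Matrix.single, Fin.sum_univ_two, ha, h11]
      · exact mul_eq_zero.mp hbc
      · exact (mul_eq_zero.mp hbc).symm
  · refine conj_of (M := !![P 0 0, - P 0 1; P 1 0, P 0 0]) ?_ ?_
    · rw [Matrix.det_fin_two_of]
      have : P 0 0 * P 0 0 - -P 0 1 * P 1 0 = P 0 0 := by linear_combination h00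
      rw [this]
      exact ha
    · apply ext2 <;> simp [Matrix.mul_apply, Matrix.single, Fin.sum_univ_two, h11]
      · linear_combination h00
      · ring
      · ring
      · linear_combination -h00

variable {E : Type*} [Field E] [CharZero E] {G : Type*} [Group G] {n : ℕ} {V : G →* GL (Fin 2) E}
  {T : G →* GL (Fin n) E} {L D : Submodule E (M2 E × Mn E n)}

omit [CharZero E] in
private lemma cj_inv (u : GL (Fin 2) E) (x : M2 E) : cj u⁻¹ (cj u x) = x := by
  unfold cj
  rw [inv_inv]
  calc ((u⁻¹ : GL (Fin 2) E) : M2 E) * ((u : M2 E) * x * ((u⁻¹ : GL (Fin 2) E) : M2 E)) * (u : M2 E)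
      = (((u⁻¹ : GL (Fin 2) E) : M2 E) * (u : M2 E)) * x *
        (((u⁻¹ : GL (Fin 2) E) : M2 E) * (u : M2 E)) := by noncomm_ring
    _ = x := by rw [inv_mul_val, one_mul, mul_one]

omit [CharZero E] in
private lemma sec_ext (hD : Sec V T L D) {z w : M2 E × Mn E n} (hz : z ∈ D) (hw : w ∈ D)
    (h : z.1 = w.1) : z = w := by
  have := hD.inj (z - w) (D.sub_mem hz hw) (by rw [Prod.fst_sub, h, sub_self])
  exact sub_eq_zero.mp this

theorem exists_mult (hD : Sec V T L D) {P : M2 E × Mn E n} (hPL : P ∈ L) (hP : P * P = P)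
    (ht : P.1.trace = 1) :
    ∃ s : M2 E →ₗ[E] Mn E n, (∀ x y, s (x * y) = s x * s y) ∧
      ∀ x : M2 E, x.trace = 0 → (x, s x) ∈ D := by
  have hP1 : P.1 * P.1 = P.1 := congrArg Prod.fst hP
  have hP2 : P.2 * P.2 = P.2 := congrArg Prod.snd hP
  obtain ⟨u, hu⟩ := conj_idem hP1 ht
  have hPu : P.1 = cj u⁻¹ (single 0 0 1) := by rw [← hu, cj_inv]
  obtain ⟨ze, hze, hze1⟩ := hD.surj (cj u⁻¹ (single 0 1 1)) (by
    rw [trace_cj, tr_def]; simp [Matrix.single])
  obtain ⟨zf, hzf, hzf1⟩ := hD.surj (cj u⁻¹ (single 1 0 1)) (by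
    rw [trace_cj, tr_def]; simp [Matrix.single])
  have r1 : P * ze - ze * P = ze := by
    apply sec_ext hD (hD.br P hPL ze hze) hze
    rw [Prod.fst_sub, Prod.fst_mul, Prod.fst_mul, hze1, hPu, ← cj_mul, ← cj_mul, ← cj_sub]
    congr 1
    apply ext2 <;> simp [Matrix.mul_apply, Matrix.single]
  have r2 : P * zf - zf * P = -zf := by
    apply sec_ext hD (hD.br P hPL zf hzf) (D.neg_mem hzf)
    rw [Prod.fst_sub, Prod.fst_mul, Prod.fst_mul, Prod.fst_neg, hzf1, hPu, ← cj_mul, ← cj_mul,
      ← cj_sub, ← neg_one_smul E (cj u⁻¹ (single 1 0 1)), ← cj_smul]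
    congr 1
    apply ext2 <;> simp [Matrix.mul_apply, Matrix.single]
  have hh : ze * zf - zf * ze ∈ D := hD.br ze (hD.le hze) zf hzf
  have r3 : (ze * zf - zf * ze) * ze - ze * (ze * zf - zf * ze) = 2 * ze := by
    have h2 : (2 : M2 E × Mn E n) * ze = (2 : E) • ze := by rw [two_mul, two_smul]
    rw [h2]
    apply sec_ext hD (hD.br _ (hD.le hh) ze hze) (D.smul_mem _ hze)
    rw [Prod.fst_sub, Prod.fst_mul, Prod.fst_mul, Prod.fst_sub, Prod.fst_mul, Prod.fst_mul,
      Prod.smul_fst, hze1, hzf1, ← cj_mul, ← cj_mul, ← cj_sub, ← cj_mul, ← cj_mul, ← cj_sub,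
      ← cj_smul]
    congr 1
    apply ext2 <;> (simp [Matrix.mul_apply, Matrix.single]; try norm_num)
  have r4 : (ze * zf - zf * ze) * zf - zf * (ze * zf - zf * ze) = -(2 * zf) := by
    have h2 : -((2 : M2 E × Mn E n) * zf) = (-2 : E) • zf := by
      rw [two_mul, neg_smul, two_smul]
    rw [h2]
    apply sec_ext hD (hD.br _ (hD.le hh) zf hzf) (D.smul_mem _ hzf)
    rw [Prod.fst_sub, Prod.fst_mul, Prod.fst_mul, Prod.fst_sub, Prod.fst_mul, Prod.fst_mul,
      Prod.smul_fst, hze1, hzf1, ← cj_mul, ← cj_mul, ← cj_sub, ← cj_mul, ← cj_mul, ← cj_sub,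
      ← cj_smul]
    congr 1
    apply ext2 <;> (simp [Matrix.mul_apply, Matrix.single]; try norm_num)
  have r1' := congrArg Prod.snd r1
  have r2' := congrArg Prod.snd r2
  have r3' := congrArg Prod.snd r3
  have r4' := congrArg Prod.snd r4
  simp only [Prod.snd_sub, Prod.snd_mul, Prod.snd_neg, Prod.snd_ofNat] at r1' r2' r3' r4'
  obtain ⟨ee, ff, efe, fef⟩ := idem_relations (E := E) hP2 r1' r2' r3' r4'
  set e := ze.2 with he
  set f := zf.2 with hf
  let s : M2 E →ₗ[E] Mn E n :=
    { toFun := fun x => cj u x 0 0 • (e * f) + cj u x 0 1 • e + cj u x 1 0 • f +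
        cj u x 1 1 • (f * e)
      map_add' := by
        intro x y
        simp only [cj_add, Matrix.add_apply, add_smul]
        module
      map_smul' := by
        intro c x
        simp only [cj_smul, Matrix.smul_apply, smul_eq_mul, mul_smul, smul_add, RingHom.id_apply] }
  have hs : ∀ x, s x = cj u x 0 0 • (e * f) + cj u x 0 1 • e + cj u x 1 0 • f +
      cj u x 1 1 • (f * e) := fun x => rfl
  refine ⟨s, fun x y => ?_, fun x hx => ?_⟩
  · rw [hs, hs, hs, cj_mul]
    set a := cj u x
    set b := cj u y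
    have m1 : (e * f) * (e * f) = e * f := by rw [← mul_assoc, efe]
    have m2 : (e * f) * e = e := efe
    have m3 : (e * f) * f = 0 := by rw [mul_assoc, ff, mul_zero]
    have m4 : (e * f) * (f * e) = 0 := by rw [← mul_assoc, m3, zero_mul]
    have m5 : e * (e * f) = 0 := by rw [← mul_assoc, ee, zero_mul]
    have m6 : e * (f * e) = e := by rw [← mul_assoc, efe]
    have m7 : f * (e * f) = f := by rw [← mul_assoc, fef]
    have m8 : f * (f * e) = 0 := by rw [← mul_assoc, ff, zero_mul]
    have m9 : (f * e) * (e * f) = 0 := by rw [mul_assoc, m5, mul_zero]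
    have m10 : (f * e) * e = 0 := by rw [mul_assoc, ee, mul_zero]
    have m11 : (f * e) * f = f := fef
    have m12 : (f * e) * (f * e) = f * e := by rw [← mul_assoc, fef]
    simp only [Matrix.mul_apply, Fin.sum_univ_two, add_mul, mul_add, smul_mul_assoc,
      mul_smul_comm, m1, m2, m3, m4, m5, m6, m7, m8, m9, m10, m11, m12, ee, ff, smul_zero,
      add_zero, zero_add, add_smul]
    module
  · have ht' : (cj u x).trace = 0 := by rw [trace_cj, hx]
    rw [tr_def] at ht'
    have h11 : cj u x 1 1 = - cj u x 0 0 := by linear_combination ht'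
    have hmem : cj u x 0 0 • (ze * zf - zf * ze) + cj u x 0 1 • ze + cj u x 1 0 • zf ∈ D :=
      D.add_mem (D.add_mem (D.smul_mem _ hh) (D.smul_mem _ hze)) (D.smul_mem _ hzf)
    convert hmem using 1
    ext1
    · rw [Prod.fst_add, Prod.fst_add, Prod.smul_fst, Prod.smul_fst, Prod.smul_fst, Prod.fst_sub,
        Prod.fst_mul, Prod.fst_mul, hze1, hzf1, ← cj_mul, ← cj_mul, ← cj_sub, ← cj_smul,
        ← cj_smul, ← cj_smul, ← cj_add, ← cj_add]
      refine (cj_inv u x).symm.trans ?_
      congr 1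
      apply ext2 <;> simp [Matrix.mul_apply, Matrix.single, h11]
    · rw [Prod.snd_add, Prod.snd_add, Prod.smul_snd, Prod.smul_snd, Prod.smul_snd, Prod.snd_sub,
        Prod.snd_mul, Prod.snd_mul, hs, h11, smul_sub, neg_smul, ← he, ← hf]
      module

end Pool.Agent.Helper37.Af
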