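import Pool.Agent.Helper37.Af.KpCent

/-!
# Project Af (MP_6cbef8_nt), module Perp: `Kp L` is large

PLAN. `Kp_ns`. Let `K` be the submodule of `L` of all `z` with scalar first component and `B(z, w) = trace (z.2 * w.2)` as a
`LinearMap.BilinForm E L` (symmetric). Suppose every element of `Kp L` has scalar first component. Then `K^⊥ = Kp L ≤ K` and
`L^⊥ ≤ K^⊥ ≤ K`. By `LinearMap.BilinForm.finrank_add_finrank_orthogonal` for `K`: `dim K + dim K^⊥ = dim L + dim (K ⊓ L^⊥) = dim L + dim L^⊥`, and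
for `K^⊥`: `dim K^⊥ + dim K^⊥⊥ = dim L + dim L^⊥`. So `dim K^⊥⊥ = dim K`, and `K ≤ K^⊥⊥`, so `K = K^⊥⊥`. Brackets of `L` are in
`K^⊥⊥`: for `w ∈ K^⊥ = Kp L` (central in `L` by `Kp_central`): `trace ([a.2, b.2] w.2) = trace (a.2 [b.2, w.2]) = 0`. So all brackets
of `L` have scalar, hence (trace zero, `CharZero`) zero first component: all first components of `L` commute. This
contradicts `hV` (AdSimple) and `hL.ns`: let `a ∈ L` with `a.1` not scalar; `N = {x - (trace x / 2) | x ∈ pr_1 L}` (or the span of the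
traceless parts) is a nonzero normalised subspace of trace zero matrices, so it is all of them, but `e` and `f` do not commute.
`Kp_lift`: the subspace `{x : trace x = 0, ∃ z ∈ Kp L, ∃ c, z.1 = x + c}` is normalised by `V` (`Kp_ad`), nonzero (`Kp_ns`), so everything.
(`cj`, `trace_cj`, `cj_add`, `cj_smul`, `cj_one` in Helper27/FM/Goursat.lean; `(pair V T g * z * pair V T g⁻¹).1 = cj (V g) z.1` by `map_inv`, `rfl`.)
-/

set_option autoImplicit false

namespace Pool.Agent.Helper37.Af

open Pool.Agent.Helper27.FM Matrix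

variable {E : Type*} [Field E] [CharZero E] {G : Type*} [Group G] {n : ℕ} {V : G →* GL (Fin 2) E}
  {T : G →* GL (Fin n) E} {L : Submodule E (M2 E × Mn E n)}

private theorem lift_of_ns (hV : AdSimple V) (M : Submodule E (M2 E × Mn E n))
    (had : ∀ g, ∀ z ∈ M, pair V T g * z * pair V T g⁻¹ ∈ M)
    (hns : ∃ z ∈ M, ∀ c : E, z.1 ≠ c • (1 : M2 E)) (x : M2 E) (hx : x.trace = 0) :
    ∃ z ∈ M, ∃ c : E, z.1 = x + c • (1 : M2 E) := by
  let N : Submodule E (M2 E) :=
    { carrier := {y | y.trace = 0 ∧ ∃ z ∈ M, ∃ c : E, z.1 = y + c • (1 : M2 E)}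
      zero_mem' := ⟨Matrix.trace_zero _ _, 0, M.zero_mem, 0, by simp⟩
      add_mem' := by
        rintro a b ⟨ha, z, hz, c, hc⟩ ⟨hb, w, hw, d, hd⟩
        refine ⟨by rw [Matrix.trace_add, ha, hb, add_zero], z + w, M.add_mem hz hw, c + d, ?_⟩
        rw [Prod.fst_add, hc, hd, add_smul]
        abel
      smul_mem' := by
        rintro e a ⟨ha, z, hz, c, hc⟩
        refine ⟨by rw [Matrix.trace_smul, ha, smul_zero], e • z, M.smul_mem e hz, e * c, ?_⟩
        rw [Prod.smul_fst, hc, smul_add, smul_smul] }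
  have hN1 : ∀ a ∈ N, a.trace = 0 := fun a ha => ha.1
  have hN2 : ∀ g, ∀ a ∈ N, cj (V g) a ∈ N := by
    rintro g a ⟨ha, z, hz, c, hc⟩
    refine ⟨by rw [trace_cj, ha], _, had g z hz, c, ?_⟩
    have h1 : (pair V T g * z * pair V T g⁻¹).1 = cj (V g) z.1 := by
      unfold cj
      rw [← map_inv]
      rfl
    rw [h1, hc, cj_add, cj_smul, cj_one]
  have h2 : (2 : E) ≠ 0 := two_ne_zero
  have hN3 : ∃ a ∈ N, a ≠ 0 := by
    obtain ⟨z, hz, hzs⟩ := hns
    refine ⟨z.1 - (z.1.trace / 2) • (1 : M2 E), ⟨?_, z, hz, z.1.trace / 2, ?_⟩, ?_⟩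
    · rw [Matrix.trace_sub, Matrix.trace_smul, Matrix.trace_one, Fintype.card_fin, smul_eq_mul]
      push_cast
      field_simp
      ring
    · rw [sub_add_cancel]
    · intro h
      exact hzs _ (sub_eq_zero.1 h)
  obtain ⟨_, z, hz, c, hc⟩ := hV N hN1 hN2 hN3 x hx
  exact ⟨z, hz, c, hc⟩

private theorem not_comm (hV : AdSimple V) (hL : LieData V T L)
    (h : ∀ a ∈ L, ∀ b ∈ L, a.1 * b.1 = b.1 * a.1) : False := by
  have he : (Matrix.single 0 1 1 : M2 E).trace = 0 := by
    rw [tr_def]; simp [Matrix.single]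
  have hf : (Matrix.single 1 0 1 : M2 E).trace = 0 := by
    rw [tr_def]; simp [Matrix.single]
  obtain ⟨z, hz, c, hc⟩ := lift_of_ns hV L hL.ad hL.ns _ he
  obtain ⟨w, hw, d, hd⟩ := lift_of_ns hV L hL.ad hL.ns _ hf
  have h1 := h z hz w hw
  rw [hc, hd] at h1
  have h3 := congrFun (congrFun h1 0) 0
  simp [Matrix.mul_apply, Matrix.single, Matrix.one_apply] at h3
  exact one_ne_zero (α := E) (by linear_combination h3)

private def trB (L : Submodule E (M2 E × Mn E n)) : LinearMap.BilinForm E L :=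
  LinearMap.mk₂ E (fun z w : L => ((z : M2 E × Mn E n).2 * (w : M2 E × Mn E n).2).trace)
    (by intro a b c; simp [add_mul, Matrix.trace_add])
    (by intro r a b; simp [Matrix.trace_smul])
    (by intro a b c; simp [mul_add, Matrix.trace_add])
    (by intro r a b; simp [Matrix.trace_smul])

omit [CharZero E] in
private theorem trB_apply (z w : L) :
    trB L z w = ((z : M2 E × Mn E n).2 * (w : M2 E × Mn E n).2).trace := rfl

private def scK (L : Submodule E (M2 E × Mn E n)) : Submodule E L where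
  carrier := {z | ∃ c : E, (z : M2 E × Mn E n).1 = c • (1 : M2 E)}
  zero_mem' := ⟨0, by simp⟩
  add_mem' := by
    rintro a b ⟨c, hc⟩ ⟨d, hd⟩
    exact ⟨c + d, by rw [Submodule.coe_add, Prod.fst_add, hc, hd, add_smul]⟩
  smul_mem' := by
    rintro e a ⟨c, hc⟩
    exact ⟨e * c, by rw [Submodule.coe_smul, Prod.smul_fst, hc, smul_smul]⟩

theorem Kp_ns (hss : Semisimple T) (hV : AdSimple V) (hL : LieData V T L) :
    ∃ z ∈ Kp L, ∀ c : E, z.1 ≠ c • (1 : M2 E) := by
  by_contra hcon
  push Not at hcon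
  apply not_comm hV hL
  have hsymm : ∀ z w : L, trB L z w = trB L w z := by
    intro z w
    rw [trB_apply, trB_apply, Matrix.trace_mul_comm]
  have hrefl : (trB L).IsRefl := by
    intro z w h
    rw [hsymm]; exact h
  have hperp : ∀ w ∈ (trB L).orthogonal (scK L), (w : M2 E × Mn E n) ∈ Kp L := by
    intro w hw
    rw [LinearMap.BilinForm.mem_orthogonal_iff] at hw
    refine ⟨w.2, fun u hu hc => ?_⟩
    have h1 := hw ⟨u, hu⟩ hc
    rw [trB_apply] at h1
    rw [Matrix.trace_mul_comm]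
    exact h1
  have hle : (trB L).orthogonal (scK L) ≤ scK L := fun w hw => hcon _ (hperp w hw)
  have htop : (trB L).orthogonal ⊤ ≤ (trB L).orthogonal (scK L) :=
    LinearMap.BilinForm.orthogonal_le le_top
  have f1 := LinearMap.BilinForm.finrank_add_finrank_orthogonal hrefl (scK L)
  have f2 := LinearMap.BilinForm.finrank_add_finrank_orthogonal hrefl
    ((trB L).orthogonal (scK L))
  rw [inf_eq_right.2 (le_trans htop hle)] at f1
  rw [inf_eq_right.2 htop] at f2
  have hKK : scK L ≤ (trB L).orthogonal ((trB L).orthogonal (scK L)) :=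
    LinearMap.BilinForm.le_orthogonal_orthogonal hrefl
  have hfr : Module.finrank E (scK L) =
      Module.finrank E ((trB L).orthogonal ((trB L).orthogonal (scK L))) := by omega
  have hKeq := Submodule.eq_of_le_of_finrank_eq hKK hfr
  intro a ha b hb
  have hbr : (⟨a * b - b * a, hL.br a ha b hb⟩ : L) ∈ scK L := by
    rw [hKeq, LinearMap.BilinForm.mem_orthogonal_iff]
    intro w hw
    rw [trB_apply]
    have hwK := hperp w hw
    have hwc := hcon _ hwK
    have hwb := Kp_central hss hL b hb _ hwK hwc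
    have h1 : (w : M2 E × Mn E n).2 * b.2 = b.2 * (w : M2 E × Mn E n).2 := by
      have := congrArg Prod.snd hwb
      simpa using this.symm
    change ((w : M2 E × Mn E n).2 * (a.2 * b.2 - b.2 * a.2)).trace = 0
    rw [mul_sub, Matrix.trace_sub, ← mul_assoc, ← mul_assoc, h1,
      Matrix.trace_mul_comm ((w : M2 E × Mn E n).2 * a.2) b.2, ← mul_assoc, sub_self]
  obtain ⟨c, hc⟩ := hbr
  change a.1 * b.1 - b.1 * a.1 = c • (1 : M2 E) at hc
  have htr := congrArg Matrix.trace hc
  rw [trace_bracket, Matrix.trace_smul, Matrix.trace_one, Fintype.card_fin, smul_eq_mul] at htr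
  have h2 : (2 : E) ≠ 0 := two_ne_zero
  have hc0 : c = 0 := by
    rcases mul_eq_zero.1 htr.symm with h | h
    · exact h
    · exact absurd h (by exact_mod_cast h2)
  rw [hc0, zero_smul] at hc
  exact sub_eq_zero.1 hc

theorem Kp_lift (hss : Semisimple T) (hV : AdSimple V) (hL : LieData V T L) (x : M2 E)
    (hx : x.trace = 0) : ∃ z ∈ Kp L, ∃ c : E, z.1 = x + c • (1 : M2 E) :=
  lift_of_ns hV (Kp L) (Kp_ad hL) (Kp_ns hss hV hL) x hx

end Pool.Agent.Helper37.Af
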