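import Pool.Agent.Helper37.Af.Perp

/-!
# Project Af (MP_6cbef8_nt), module Section: the ideal isomorphic to `sl_2`

PLAN. Let `se, sf, sh ∈ Kp L` lift `e = single 0 1 1`, `f = single 1 0 1`, `h = [e, f]` modulo scalars (`Kp_lift`). Every `u ∈ Kp L` is
`u = a • se + b • sf + c • sh + w` with `w ∈ Kp L`, `w.1` scalar (the traceless part of `u.1` is a combination of `e, f, h`), and `w`
commutes with everything in `L` (`Kp_central`). Let `D` be the set of all `a • [se, sf] + b • [sh, se] + c • [sh, sf]` (span of the three brackets).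
(★) `[u, v] ∈ D` for all `u, v ∈ Kp L` (expand). `D ≤ L`; `D` is an ideal: `[z, [se, sf]] = [[z, se], sf] + [se, [z, sf]]`, `[z, se] ∈ Kp L`
(`Kp_br`), use (★); normalised: `g [se, sf] g⁻¹ = [g se g⁻¹, g sf g⁻¹]`, use (★), `Kp_ad`. First components of the three generators
are `h`, `2 e`, `-2 f` (`[h, e] = 2 e`, `[h, f] = -2 f`), which are linearly independent and span the trace zero matrices: gives `tr`,
`surj`, `inj`.
-/

set_option autoImplicit false

namespace Pool.Agent.Helper37.Af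

open Pool.Agent.Helper27.FM Matrix

variable {E : Type*} [Field E] [CharZero E] {G : Type*} [Group G] {n : ℕ} {V : G →* GL (Fin 2) E}
  {T : G →* GL (Fin n) E} {L : Submodule E (M2 E × Mn E n)}

private def secE (E : Type*) [Field E] : M2 E := !![0, 1; 0, 0]

private def secF (E : Type*) [Field E] : M2 E := !![0, 0; 1, 0]

private def secH (E : Type*) [Field E] : M2 E := !![1, 0; 0, -1]

omit [CharZero E] in
private theorem sec_tr : (secE E).trace = 0 ∧ (secF E).trace = 0 ∧ (secH E).trace = 0 := by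
  refine ⟨?_, ?_, ?_⟩ <;> simp [secE, secF, secH, Matrix.trace_fin_two]

private theorem sec_dec (x : M2 E) : x = (x 0 1) • secE E + (x 1 0) • secF E +
    ((x 0 0 - x 1 1) / 2) • secH E + ((x 0 0 + x 1 1) / 2) • (1 : M2 E) := by
  ext i j
  fin_cases i <;> fin_cases j <;> simp [secE, secF, secH] <;> ring

omit [CharZero E] in
private theorem sec_ef (a b : E) : (secE E + a • (1 : M2 E)) * (secF E + b • (1 : M2 E)) -
    (secF E + b • (1 : M2 E)) * (secE E + a • (1 : M2 E)) = secH E := by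
  ext i j
  fin_cases i <;> fin_cases j <;>
    simp [secE, secF, secH, Matrix.mul_apply, Fin.sum_univ_two] <;> ring

omit [CharZero E] in
private theorem sec_he (a b : E) : (secH E + a • (1 : M2 E)) * (secE E + b • (1 : M2 E)) -
    (secE E + b • (1 : M2 E)) * (secH E + a • (1 : M2 E)) = (2 : E) • secE E := by
  ext i j
  fin_cases i <;> fin_cases j <;>
    simp [secE, secH, Matrix.mul_apply, Fin.sum_univ_two] <;> ring

omit [CharZero E] in
private theorem sec_hf (a b : E) : (secH E + a • (1 : M2 E)) * (secF E + b • (1 : M2 E)) -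
    (secF E + b • (1 : M2 E)) * (secH E + a • (1 : M2 E)) = (-2 : E) • secF E := by
  ext i j
  fin_cases i <;> fin_cases j <;>
    simp [secF, secH, Matrix.mul_apply, Fin.sum_univ_two] <;> ring

omit [CharZero E] in
/-- abstract computation of a bracket -/
private theorem sec_star {A : Type*} [Ring A] [Algebra E A] (se sf sh w w' : A)
    (a b c a' b' c' : E) (h1 : se * w = w * se) (h2 : sf * w = w * sf) (h3 : sh * w = w * sh)
    (h1' : se * w' = w' * se) (h2' : sf * w' = w' * sf) (h3' : sh * w' = w' * sh)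
    (hw : w * w' = w' * w) :
    (a • se + b • sf + c • sh + w) * (a' • se + b' • sf + c' • sh + w') -
      (a' • se + b' • sf + c' • sh + w') * (a • se + b • sf + c • sh + w) =
    (a * b' - b * a') • (se * sf - sf * se) + (c * a' - a * c') • (sh * se - se * sh) +
      (c * b' - b * c') • (sh * sf - sf * sh) := by
  simp only [mul_add, add_mul, smul_mul_assoc, mul_smul_comm, h1, h2, h3, h1', h2',
    h3', hw]
  module

private theorem sec_lie {A : Type*} [Ring A] (z s t : A) :
    z * (s * t - t * s) - (s * t - t * s) * z =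
      ((z * s - s * z) * t - t * (z * s - s * z)) + (s * (z * t - t * z) - (z * t - t * z) * s) := by
  noncomm_ring

private theorem sec_conj {A : Type*} [Ring A] (g g' s t : A) (h : g' * g = 1) :
    g * (s * t - t * s) * g' = (g * s * g') * (g * t * g') - (g * t * g') * (g * s * g') := by
  have h1 : ∀ x y : A, (g * x * g') * (g * y * g') = g * (x * y) * g' := by
    intro x y
    calc (g * x * g') * (g * y * g') = g * x * (g' * g) * y * g' := by noncomm_ring
      _ = g * (x * y) * g' := by rw [h]; noncomm_ring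
  rw [h1, h1]
  noncomm_ring

theorem exists_sec (hss : Semisimple T) (hV : AdSimple V) (hL : LieData V T L) :
    ∃ D, Sec V T L D := by
  classical
  obtain ⟨se, hse, ce, hse'⟩ := Kp_lift hss hV hL (secE E) sec_tr.1
  obtain ⟨sf, hsf, cf, hsf'⟩ := Kp_lift hss hV hL (secF E) sec_tr.2.1
  obtain ⟨sh, hsh, ch, hsh'⟩ := Kp_lift hss hV hL (secH E) sec_tr.2.2
  have hdec : ∀ u ∈ Kp L, ∃ a b c : E, ∃ w ∈ Kp L, (∃ d : E, w.1 = d • (1 : M2 E)) ∧
      u = a • se + b • sf + c • sh + w := by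
    intro u hu
    refine ⟨u.1 0 1, u.1 1 0, (u.1 0 0 - u.1 1 1) / 2,
      u - ((u.1 0 1) • se + (u.1 1 0) • sf + ((u.1 0 0 - u.1 1 1) / 2) • sh), ?_, ?_, ?_⟩
    · exact (Kp L).sub_mem hu ((Kp L).add_mem ((Kp L).add_mem ((Kp L).smul_mem _ hse)
        ((Kp L).smul_mem _ hsf)) ((Kp L).smul_mem _ hsh))
    · refine ⟨(u.1 0 0 + u.1 1 1) / 2 - (u.1 0 1) * ce - (u.1 1 0) * cf -
        ((u.1 0 0 - u.1 1 1) / 2) * ch, ?_⟩
      have h := sec_dec u.1
      have h1 : (u - ((u.1 0 1) • se + (u.1 1 0) • sf + ((u.1 0 0 - u.1 1 1) / 2) • sh)).1 =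
          u.1 - ((u.1 0 1) • se.1 + (u.1 1 0) • sf.1 + ((u.1 0 0 - u.1 1 1) / 2) • sh.1) := rfl
      rw [h1, hse', hsf', hsh']
      nth_rewrite 1 [h]
      module
    · abel
  set X : M2 E × Mn E n := se * sf - sf * se with hX
  set Y : M2 E × Mn E n := sh * se - se * sh with hY
  set Z : M2 E × Mn E n := sh * sf - sf * sh with hZ
  have hX1 : X.1 = secH E := by
    have h1 : X.1 = se.1 * sf.1 - sf.1 * se.1 := rfl
    rw [h1, hse', hsf', sec_ef]
  have hY1 : Y.1 = (2 : E) • secE E := by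
    have h1 : Y.1 = sh.1 * se.1 - se.1 * sh.1 := rfl
    rw [h1, hse', hsh', sec_he]
  have hZ1 : Z.1 = (-2 : E) • secF E := by
    have h1 : Z.1 = sh.1 * sf.1 - sf.1 * sh.1 := rfl
    rw [h1, hsf', hsh', sec_hf]
  let D : Submodule E (M2 E × Mn E n) :=
    { carrier := {z | ∃ a b c : E, z = a • X + b • Y + c • Z}
      zero_mem' := ⟨0, 0, 0, by simp⟩
      add_mem' := by
        rintro _ _ ⟨a, b, c, rfl⟩ ⟨a', b', c', rfl⟩
        exact ⟨a + a', b + b', c + c', by module⟩
      smul_mem' := by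
        rintro r _ ⟨a, b, c, rfl⟩
        exact ⟨r * a, r * b, r * c, by module⟩ }
  have hDm : ∀ z, z ∈ D ↔ ∃ a b c : E, z = a • X + b • Y + c • Z := fun z => Iff.rfl
  have hstar : ∀ u ∈ Kp L, ∀ v ∈ Kp L, u * v - v * u ∈ D := by
    intro u hu v hv
    obtain ⟨a, b, c, w, hw, hwd, rfl⟩ := hdec u hu
    obtain ⟨a', b', c', w', hw', hwd', rfl⟩ := hdec v hv
    have k1 := fun z hz => Kp_central hss hL z (Kp_le hz) w hw hwd
    have k2 := fun z hz => Kp_central hss hL z (Kp_le hz) w' hw' hwd'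
    rw [sec_star se sf sh w w' a b c a' b' c' (k1 se hse) (k1 sf hsf) (k1 sh hsh)
      (k2 se hse) (k2 sf hsf) (k2 sh hsh) (k2 w hw)]
    exact ⟨_, _, _, rfl⟩
  have hgen : ∀ P : (M2 E × Mn E n) → Prop, (∀ s ∈ Kp L, ∀ t ∈ Kp L, P (s * t - t * s)) →
      (∀ x y, P x → P y → P (x + y)) → (∀ (r : E) x, P x → P (r • x)) → ∀ z ∈ D, P z := by
    rintro P hP hadd hsm _ ⟨a, b, c, rfl⟩
    exact hadd _ _ (hadd _ _ (hsm _ _ (hP _ hse _ hsf)) (hsm _ _ (hP _ hsh _ hse)))
      (hsm _ _ (hP _ hsh _ hsf))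
  refine ⟨D, ⟨?_, ?_, ?_, ?_, ?_, ?_⟩⟩
  · intro z hz
    refine hgen (fun z => z ∈ L) (fun s hs t ht => hL.br s (Kp_le hs) t (Kp_le ht))
      (fun x y hx hy => L.add_mem hx hy) (fun r x hx => L.smul_mem r hx) z hz
  · intro z hz w hw
    refine hgen (fun w => z * w - w * z ∈ D) (fun s hs t ht => ?_) (fun x y hx hy => ?_)
      (fun r x hx => ?_) w hw
    · rw [sec_lie]
      exact D.add_mem (hstar _ (Kp_br hL z hz s hs) _ ht) (hstar _ hs _ (Kp_br hL z hz t ht))
    · have h1 : z * (x + y) - (x + y) * z = (z * x - x * z) + (z * y - y * z) := by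
        rw [mul_add, add_mul]
        abel
      rw [h1]
      exact D.add_mem hx hy
    · have h1 : z * (r • x) - (r • x) * z = r • (z * x - x * z) := by
        rw [mul_smul_comm, smul_mul_assoc, smul_sub]
      rw [h1]
      exact D.smul_mem r hx
  · intro g z hz
    refine hgen (fun z => pair V T g * z * pair V T g⁻¹ ∈ D) (fun s hs t ht => ?_)
      (fun x y hx hy => ?_) (fun r x hx => ?_) z hz
    · have h1 : pair V T g⁻¹ * pair V T g = 1 := by
        rw [← map_mul, inv_mul_cancel, map_one]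
      rw [sec_conj _ _ _ _ h1]
      exact hstar _ (Kp_ad hL g s hs) _ (Kp_ad hL g t ht)
    · rw [mul_add, add_mul]
      exact D.add_mem hx hy
    · rw [mul_smul_comm, smul_mul_assoc]
      exact D.smul_mem r hx
  · rintro _ ⟨a, b, c, rfl⟩
    have h1 : (a • X + b • Y + c • Z).1 = a • X.1 + b • Y.1 + c • Z.1 := rfl
    rw [h1, hX1, hY1, hZ1]
    simp [Matrix.trace_add, Matrix.trace_smul, sec_tr.1, sec_tr.2.1, sec_tr.2.2]
  · intro x hx
    refine ⟨(x 0 0) • X + (x 0 1 / 2) • Y + (-(x 1 0) / 2) • Z, ⟨_, _, _, rfl⟩, ?_⟩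
    have h1 : ((x 0 0) • X + (x 0 1 / 2) • Y + (-(x 1 0) / 2) • Z).1 =
      (x 0 0) • X.1 + (x 0 1 / 2) • Y.1 + (-(x 1 0) / 2) • Z.1 := rfl
    rw [h1, hX1, hY1, hZ1]
    have h2 : x 1 1 = - x 0 0 := by
      rw [Matrix.trace_fin_two] at hx
      linear_combination hx
    ext i j
    fin_cases i <;> fin_cases j <;> simp [secE, secF, secH, h2]
  · rintro _ ⟨a, b, c, rfl⟩ h0
    have h1 : (a • X + b • Y + c • Z).1 = a • X.1 + b • Y.1 + c • Z.1 := rfl
    rw [h1, hX1, hY1, hZ1] at h0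
    have e00 := congrFun (congrFun h0 0) 0
    have e01 := congrFun (congrFun h0 0) 1
    have e10 := congrFun (congrFun h0 1) 0
    simp [secE, secF, secH] at e00 e01 e10
    rw [e00, e01, e10]
    simp

end Pool.Agent.Helper37.Af
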